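import Mathlib

set_option autoImplicit false

/-!
# Squarefree congruent numbers `m ^ 3 t ^ 4 - m s ^ 4`: elementary facts
-/

namespace Pool.Agent.V7H28.Cl

/-- `n` is the area of a right triangle with rational sides -/
def IsCongruent (n : ℕ) : Prop :=
  ∃ a b c : ℚ, 0 < a ∧ 0 < b ∧ 0 < c ∧ a ^ 2 + b ^ 2 = c ^ 2 ∧ (n : ℚ) = a * b / 2

lemma cong_of (m t s n : ℕ) (hm : 0 < m) (ht : 0 < t) (hs : 0 < s) (h : s ^ 2 < m * t ^ 2)
    (hn : n + m * s ^ 4 = m ^ 3 * t ^ 4) : IsCongruent n := by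
  have hm' : (0 : ℚ) < m := by exact_mod_cast hm
  have ht' : (0 : ℚ) < t := by exact_mod_cast ht
  have hs' : (0 : ℚ) < s := by exact_mod_cast hs
  have h' : (s : ℚ) ^ 2 < m * t ^ 2 := by exact_mod_cast h
  have hn' : (n : ℚ) + m * s ^ 4 = m ^ 3 * t ^ 4 := by exact_mod_cast hn
  have hs2 : (0 : ℚ) < (s : ℚ) ^ 2 := by positivity
  refine ⟨((m * t ^ 2) ^ 2 - (s ^ 2) ^ 2) / (t * s), 2 * (m * t ^ 2) * s ^ 2 / (t * s),
    ((m * t ^ 2) ^ 2 + (s ^ 2) ^ 2) / (t * s), ?_, by positivity, by positivity, ?_, ?_⟩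
  · apply div_pos _ (by positivity)
    have : (s : ℚ) ^ 2 * s ^ 2 < (m * t ^ 2) * (m * t ^ 2) :=
      mul_lt_mul'' h' h' hs2.le hs2.le
    nlinarith
  · field_simp
    ring
  · have : (n : ℚ) = m ^ 3 * t ^ 4 - m * s ^ 4 := by linarith
    rw [this]
    field_simp

/-- a prime `> y` divides `i` and `s` -/
def BadA (y i s : ℕ) : Prop := ∃ p : ℕ, p.Prime ∧ y < p ∧ p ∣ i ∧ p ∣ s

/-- the square of a prime `> y` which does not divide `s` divides `M i ^ 2 + s ^ 2` or `M i ^ 2 - s ^ 2` -/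
def BadB (y M i s : ℕ) : Prop := ∃ p : ℕ, p.Prime ∧ y < p ∧ ¬ p ∣ s ∧
  ((p : ℤ) ^ 2 ∣ (M : ℤ) * (i : ℤ) ^ 2 + (s : ℤ) ^ 2 ∨ (p : ℤ) ^ 2 ∣ (M : ℤ) * (i : ℤ) ^ 2 + -(s : ℤ) ^ 2)

lemma sqf (m Q y i j : ℕ) (hm : Squarefree m) (hmQ : m ∣ Q) (hy : 2 ≤ y)
    (hQ : ∀ p : ℕ, p.Prime → p ≤ y → p ∣ Q)
    (h : (Q * j + 1) ^ 2 < m * Q ^ 2 * i ^ 2)
    (hA : ¬ BadA y i (Q * j + 1)) (hB : ¬ BadB y (m * Q ^ 2) i (Q * j + 1)) :
    Squarefree (m * ((m * Q ^ 2 * i ^ 2 - (Q * j + 1) ^ 2) * (m * Q ^ 2 * i ^ 2 + (Q * j + 1) ^ 2))) := by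
  set s := Q * j + 1 with hs
  set M := m * Q ^ 2 with hM
  obtain ⟨D, hD⟩ : ∃ D, D = M * i ^ 2 - s ^ 2 := ⟨_, rfl⟩
  obtain ⟨E, hE⟩ : ∃ E, E = M * i ^ 2 + s ^ 2 := ⟨_, rfl⟩
  have hD' : D + s ^ 2 = M * i ^ 2 := by omega
  have hE' : E = D + 2 * s ^ 2 := by omega
  have hDE : D + E = 2 * (M * i ^ 2) := by omega
  rw [← hD, ← hE]
  rw [Nat.squarefree_iff_prime_squarefree]
  intro p hp hd
  by_cases hpQ : p ∣ Q
  · have hps : ¬ p ∣ s := by
      intro h1
      have h2 : p ∣ Q * j := hpQ.mul_right j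
      have h3 : p ∣ 1 := (Nat.dvd_add_right h2).1 (hs ▸ h1)
      exact hp.one_lt.ne' (Nat.dvd_one.1 h3)
    have hpM : p ∣ M * i ^ 2 := by
      rw [hM]
      exact ((hpQ.trans (dvd_pow_self Q (by norm_num))).mul_left m).mul_right _
    have hpD : ¬ p ∣ D := by
      intro h1
      have h2 : p ∣ s ^ 2 := (Nat.dvd_add_right h1).1 (hD' ▸ hpM)
      exact hps (hp.dvd_of_dvd_pow h2)
    have hpE : ¬ p ∣ E := by
      intro h1
      rw [hE] at h1
      have h2 : p ∣ s ^ 2 := (Nat.dvd_add_right hpM).1 h1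
      exact hps (hp.dvd_of_dvd_pow h2)
    have hc : Nat.Coprime (p * p) (D * E) := by
      have h1 : Nat.Coprime p D := (Nat.Prime.coprime_iff_not_dvd hp).2 hpD
      have h2 : Nat.Coprime p E := (Nat.Prime.coprime_iff_not_dvd hp).2 hpE
      have h3 : Nat.Coprime p (D * E) := Nat.Coprime.mul_right h1 h2
      exact Nat.Coprime.mul_left h3 h3
    have h4 : p * p ∣ m := hc.dvd_of_dvd_mul_right hd
    exact (Nat.squarefree_iff_prime_squarefree.1 hm) p hp h4
  · have hpy : y < p := by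
      by_contra h1
      exact hpQ (hQ p hp (not_lt.1 h1))
    have hpm : ¬ p ∣ m := fun h1 => hpQ (h1.trans hmQ)
    have hpM : ¬ p ∣ M := by
      rw [hM]
      intro h1
      rcases (Nat.Prime.dvd_mul hp).1 h1 with h2 | h2
      · exact hpm h2
      · exact hpQ (hp.dvd_of_dvd_pow h2)
    have hp2 : ¬ p ∣ 2 := by
      intro h1
      have := Nat.le_of_dvd (by norm_num) h1
      omega
    have hc : Nat.Coprime (p * p) m := by
      have h1 : Nat.Coprime p m := (Nat.Prime.coprime_iff_not_dvd hp).2 hpm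
      exact Nat.Coprime.mul_left h1 h1
    have h4 : p * p ∣ D * E := hc.dvd_of_dvd_mul_left hd
    have key : ∀ (hi : p ∣ M * i ^ 2) , p ∣ i := by
      intro hi
      rcases (Nat.Prime.dvd_mul hp).1 hi with h2 | h2
      · exact absurd h2 hpM
      · exact hp.dvd_of_dvd_pow h2
    -- if `p` divides `s` and one of the factors, then `p` divides `i`
    have keyA : p ∣ s → (p ∣ D ∨ p ∣ E) → False := by
      intro h1 h2
      apply hA
      refine ⟨p, hp, hpy, key ?_, h1⟩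
      have h3 : p ∣ s ^ 2 := h1.trans (dvd_pow_self s (by norm_num))
      rcases h2 with h2 | h2
      · rw [← hD']
        exact dvd_add h2 h3
      · rw [hE] at h2
        exact (Nat.dvd_add_left h3).1 h2
    have keyB : (p * p ∣ D ∨ p * p ∣ E) → False := by
      intro h1
      by_cases hps : p ∣ s
      · apply keyA hps
        rcases h1 with h1 | h1
        · exact Or.inl ((dvd_mul_right p p).trans h1)
        · exact Or.inr ((dvd_mul_right p p).trans h1)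
      · apply hB
        refine ⟨p, hp, hpy, hps, ?_⟩
        rcases h1 with h1 | h1
        · right
          have h2 : ((p * p : ℕ) : ℤ) ∣ (D : ℤ) := Int.natCast_dvd_natCast.2 h1
          have h3 : (D : ℤ) = (M : ℤ) * (i : ℤ) ^ 2 + -(s : ℤ) ^ 2 := by
            have : ((D + s ^ 2 : ℕ) : ℤ) = ((M * i ^ 2 : ℕ) : ℤ) := by rw [hD']
            push_cast at this
            linarith
          rw [h3] at h2
          push_cast at h2
          rw [← pow_two] at h2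
          exact h2
        · left
          have h2 : ((p * p : ℕ) : ℤ) ∣ (E : ℤ) := Int.natCast_dvd_natCast.2 h1
          have h3 : (E : ℤ) = (M : ℤ) * (i : ℤ) ^ 2 + (s : ℤ) ^ 2 := by
            rw [hE]
            push_cast
            ring
          rw [h3] at h2
          push_cast at h2
          rw [← pow_two] at h2
          exact h2
    by_cases hpD : p ∣ D
    · by_cases hpE : p ∣ E
      · have h5 : p ∣ 2 * s ^ 2 := (Nat.dvd_add_right hpD).1 (hE' ▸ hpE)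
        have h6 : p ∣ s := by
          rcases (Nat.Prime.dvd_mul hp).1 h5 with h7 | h7
          · exact absurd h7 hp2
          · exact hp.dvd_of_dvd_pow h7
        exact keyA h6 (Or.inl hpD)
      · have h1 : Nat.Coprime p E := (Nat.Prime.coprime_iff_not_dvd hp).2 hpE
        exact keyB (Or.inl ((Nat.Coprime.mul_left h1 h1).dvd_of_dvd_mul_right h4))
    · have h1 : Nat.Coprime p D := (Nat.Prime.coprime_iff_not_dvd hp).2 hpD
      exact keyB (Or.inr ((Nat.Coprime.mul_left h1 h1).dvd_of_dvd_mul_left h4))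

/-- elements of an interval of length `I` which are pairwise congruent modulo `k` -/
lemma card_ap (s : Finset ℕ) (A I k : ℕ) (hk : 0 < k) (hs : ∀ x ∈ s, A < x ∧ x ≤ A + I)
    (hmod : ∀ x ∈ s, ∀ y ∈ s, x ≤ y → k ∣ y - x) : s.card ≤ I / k + 1 := by
  rw [← Finset.card_range (I / k + 1)]
  apply Finset.card_le_card_of_injOn (fun x => (x - A - 1) / k)
  · intro x hx
    obtain ⟨h1, h2⟩ := hs x hx
    rw [Finset.coe_range, Set.mem_Iio]
    have : (x - A - 1) / k ≤ I / k := Nat.div_le_div_right (by omega)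
    show (x - A - 1) / k < I / k + 1
    omega
  · have main : ∀ x ∈ s, ∀ z ∈ s, x < z → (x - A - 1) / k < (z - A - 1) / k := by
      intro x hx z hz hlt
      obtain ⟨h1, h2⟩ := hs x hx
      obtain ⟨h3, h4⟩ := hs z hz
      have h5 := hmod x hx z hz hlt.le
      have h6 : k ≤ z - x := Nat.le_of_dvd (by omega) h5
      have h7 : (x - A - 1) + k ≤ z - A - 1 := by omega
      have h8 : ((x - A - 1) + k) / k ≤ (z - A - 1) / k := Nat.div_le_div_right h7
      rw [Nat.add_div_right _ hk] at h8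
      omega
    intro x hx z hz hxz
    have hxz' : (x - A - 1) / k = (z - A - 1) / k := hxz
    rcases lt_trichotomy x z with h | h | h
    · have := main x hx z hz h
      omega
    · exact h
    · have := main z hz x hx h
      omega

/-- two classes of roots modulo `p ^ 2` -/
lemma card_roots (p M A I : ℕ) (c : ℤ) (hp : p.Prime) (hp2 : p ≠ 2) (hpM : ¬ p ∣ M)
    (hpc : ¬ (p : ℤ) ∣ c) (s : Finset ℕ) (hs : ∀ x ∈ s, (A < x ∧ x ≤ A + I) ∧
      (p : ℤ) ^ 2 ∣ (M : ℤ) * (x : ℤ) ^ 2 + c) : s.card ≤ 2 * (I / p ^ 2 + 1) := by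
  classical
  rcases s.eq_empty_or_nonempty with h0 | ⟨x0, hx0⟩
  · rw [h0]
    simp
  have hpZ : Prime (p : ℤ) := Nat.prime_iff_prime_int.1 hp
  have hpp : 0 < p ^ 2 := pow_pos hp.pos 2
  have hx0p : ¬ (p : ℤ) ∣ (x0 : ℤ) := by
    intro h
    apply hpc
    have h1 := (hs x0 hx0).2
    have h2 : (p : ℤ) ∣ (M : ℤ) * (x0 : ℤ) ^ 2 + c := (dvd_pow_self _ (by norm_num)).trans h1
    have h3 : (p : ℤ) ∣ (M : ℤ) * (x0 : ℤ) ^ 2 := (h.trans (dvd_pow_self _ (by norm_num))).mul_left _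
    exact (dvd_add_right h3).1 h2
  have hcop : IsCoprime ((p : ℤ) ^ 2) (M : ℤ) := by
    apply IsCoprime.pow_left
    rw [Nat.isCoprime_iff_coprime]
    exact (Nat.Prime.coprime_iff_not_dvd hp).2 hpM
  have cls : ∀ x ∈ s, (p : ℤ) ^ 2 ∣ (x : ℤ) - x0 ∨ (p : ℤ) ^ 2 ∣ (x : ℤ) + x0 := by
    intro x hx
    have h1 := (hs x hx).2
    have h2 := (hs x0 hx0).2
    have h3 : (p : ℤ) ^ 2 ∣ (M : ℤ) * (((x : ℤ) - x0) * ((x : ℤ) + x0)) := by
      have e : (M : ℤ) * (((x : ℤ) - x0) * ((x : ℤ) + x0)) =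
          ((M : ℤ) * (x : ℤ) ^ 2 + c) - ((M : ℤ) * (x0 : ℤ) ^ 2 + c) := by ring
      rw [e]
      exact dvd_sub h1 h2
    have h4 : (p : ℤ) ^ 2 ∣ ((x : ℤ) - x0) * ((x : ℤ) + x0) := hcop.dvd_of_dvd_mul_left h3
    by_cases h5 : (p : ℤ) ∣ (x : ℤ) - x0
    · left
      have h6 : ¬ (p : ℤ) ∣ (x : ℤ) + x0 := by
        intro h6
        have h7 : (p : ℤ) ∣ 2 * (x0 : ℤ) := by
          have e : 2 * (x0 : ℤ) = ((x : ℤ) + x0) - ((x : ℤ) - x0) := by ring
          rw [e]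
          exact dvd_sub h6 h5
        rcases hpZ.dvd_or_dvd h7 with h8 | h8
        · have h9 : p ∣ 2 := by exact_mod_cast h8
          exact hp2 ((Nat.prime_dvd_prime_iff_eq hp Nat.prime_two).1 h9)
        · exact hx0p h8
      have h7 : IsCoprime ((p : ℤ) ^ 2) ((x : ℤ) + x0) := by
        apply IsCoprime.pow_left
        exact (Prime.coprime_iff_not_dvd hpZ).2 h6
      exact h7.dvd_of_dvd_mul_right h4
    · right
      have h7 : IsCoprime ((p : ℤ) ^ 2) ((x : ℤ) - x0) := by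
        apply IsCoprime.pow_left
        exact (Prime.coprime_iff_not_dvd hpZ).2 h5
      exact h7.dvd_of_dvd_mul_left h4
  have hsub : s ⊆ (s.filter fun x : ℕ => (p : ℤ) ^ 2 ∣ (x : ℤ) - x0) ∪
      (s.filter fun x : ℕ => (p : ℤ) ^ 2 ∣ (x : ℤ) + x0) := by
    intro x hx
    rw [Finset.mem_union, Finset.mem_filter, Finset.mem_filter]
    rcases cls x hx with h | h
    · exact Or.inl ⟨hx, h⟩
    · exact Or.inr ⟨hx, h⟩
  have conv : ∀ x z : ℕ, x ≤ z → (p : ℤ) ^ 2 ∣ (z : ℤ) - x → p ^ 2 ∣ z - x := by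
    intro x z hxz h
    have : (((p ^ 2 : ℕ)) : ℤ) ∣ ((z - x : ℕ) : ℤ) := by
      rw [Nat.cast_sub hxz]
      push_cast
      exact h
    exact Int.natCast_dvd_natCast.1 this
  have c1 : (s.filter fun x : ℕ => (p : ℤ) ^ 2 ∣ (x : ℤ) - x0).card ≤ I / p ^ 2 + 1 := by
    apply card_ap _ A I _ hpp
    · intro x hx
      exact (hs x (Finset.mem_filter.1 hx).1).1
    · intro x hx z hz hxz
      apply conv x z hxz
      have h1 := (Finset.mem_filter.1 hx).2
      have h2 := (Finset.mem_filter.1 hz).2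
      have e : (z : ℤ) - x = ((z : ℤ) - x0) - ((x : ℤ) - x0) := by ring
      rw [e]
      exact dvd_sub h2 h1
  have c2 : (s.filter fun x : ℕ => (p : ℤ) ^ 2 ∣ (x : ℤ) + x0).card ≤ I / p ^ 2 + 1 := by
    apply card_ap _ A I _ hpp
    · intro x hx
      exact (hs x (Finset.mem_filter.1 hx).1).1
    · intro x hx z hz hxz
      apply conv x z hxz
      have h1 := (Finset.mem_filter.1 hx).2
      have h2 := (Finset.mem_filter.1 hz).2
      have e : (z : ℤ) - x = ((z : ℤ) + x0) - ((x : ℤ) + x0) := by ring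
      rw [e]
      exact dvd_sub h2 h1
  calc s.card ≤ _ := Finset.card_le_card hsub
    _ ≤ _ := Finset.card_union_le _ _
    _ ≤ _ := by omega

end Pool.Agent.V7H28.Cl
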