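import Pool.Agent.V7H28.Cl.Fin

set_option autoImplicit false

/-!
# Clusters of squarefree congruent numbers in all residue classes
-/

namespace Pool.Agent.V7H28.Cl

/-- a squarefree number in the class `-k` -/
lemma exists_m (k q : ℕ) (hk : Squarefree k) (hq : 0 < q) : ∃ m, Squarefree m ∧ q ∣ k + m := by
  have hk0 : 0 < k := Nat.pos_of_ne_zero hk.ne_zero
  obtain ⟨g, k', q', hg0, hco, hk', hq'⟩ := Nat.exists_coprime' (Nat.gcd_pos_of_pos_left q hk0)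
  have hq0 : 0 < q' := by
    rcases Nat.eq_zero_or_pos q' with h | h
    · rw [h, zero_mul] at hq'
      omega
    · exact h
  have : NeZero q' := ⟨hq0.ne'⟩
  have hu : IsUnit (-(k' : ZMod q')) := by
    rw [IsUnit.neg_iff]
    exact (ZMod.isUnit_iff_coprime k' q').2 hco
  obtain ⟨p, hpg, hp, hpe⟩ := Nat.forall_exists_prime_gt_and_eq_mod hu g
  refine ⟨g * p, ?_, ?_⟩
  · rw [Nat.squarefree_mul_iff]
    refine ⟨?_, ?_, hp.prime.squarefree⟩
    · rw [Nat.coprime_comm, Nat.Prime.coprime_iff_not_dvd hp]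
      intro h
      have := Nat.le_of_dvd hg0 h
      omega
    · apply hk.squarefree_of_dvd
      exact ⟨k', by rw [hk']; ring⟩
  · have h1 : q' ∣ k' + p := by
      rw [← ZMod.natCast_eq_zero_iff]
      push_cast
      rw [hpe]
      ring
    rw [hk', hq', show k' * g + g * p = (k' + p) * g by ring]
    exact Nat.mul_dvd_mul_right h1 g

/-- the statement for the class of `k` -/
def Stmt (q k : ℕ) (C : ℝ) : Prop := ∀ (X Y : ℝ) (K : ℕ), 1 ≤ X → 1 ≤ K →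
  C * (X ^ (11 / 12 : ℝ) + K * X ^ (7 / 8 : ℝ)) ≤ Y → Y ≤ X → Y / (C * X ^ (3 / 4 : ℝ)) ≤
    (({N : ℕ | X ≤ N ∧ (N : ℝ) ≤ X + Y ∧
      K ≤ {n : ℕ | N ≤ n ∧ (n : ℝ) ≤ N + C * (K : ℝ) ^ 4 ∧ n ≡ k [MOD q] ∧ Squarefree n ∧
        IsCongruent n}.ncard}.ncard : ℕ) : ℝ)

lemma Stmt.mono {q k : ℕ} {C C' : ℝ} (hC : 1 ≤ C) (h : C ≤ C') (hs : Stmt q k C) : Stmt q k C' := by
  intro X Y K hX hK hY hYX
  have hX0 : 0 < X := by linarith
  have h1 : 0 ≤ X ^ (11 / 12 : ℝ) + K * X ^ (7 / 8 : ℝ) := by positivity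
  have h2 : C * (X ^ (11 / 12 : ℝ) + K * X ^ (7 / 8 : ℝ)) ≤ Y :=
    (mul_le_mul_of_nonneg_right h h1).trans hY
  have hY0 : 0 ≤ Y := le_trans (by positivity) h2
  have h3 := hs X Y K hX hK h2 hYX
  have h4 : Y / (C' * X ^ (3 / 4 : ℝ)) ≤ Y / (C * X ^ (3 / 4 : ℝ)) := by
    apply div_le_div_of_nonneg_left hY0 (by positivity)
    exact mul_le_mul_of_nonneg_right h (by positivity)
  refine (h4.trans h3).trans ?_
  apply Nat.cast_le.2
  apply Set.ncard_le_ncard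
  · rintro N ⟨a1, a2, a3⟩
    refine ⟨a1, a2, a3.trans (Set.ncard_le_ncard ?_ ?_)⟩
    · rintro n ⟨b1, b2, b3⟩
      refine ⟨b1, b2.trans ?_, b3⟩
      have := mul_le_mul_of_nonneg_right h (show (0 : ℝ) ≤ (K : ℝ) ^ 4 by positivity)
      linarith
    · apply (Set.finite_Iic ⌊(N : ℝ) + C' * (K : ℝ) ^ 4⌋₊).subset
      intro n hn
      exact Nat.le_floor hn.2.1
  · apply (Set.finite_Iic ⌊X + Y⌋₊).subset
    intro N hN
    exact Nat.le_floor hN.2.1

lemma one_class (q k : ℕ) (hq : 0 < q) (hk : Squarefree k) : ∃ C : ℝ, 1 ≤ C ∧ Stmt q k C := by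
  obtain ⟨m, hm, hd⟩ := exists_m k q hk hq
  have hm0 : 0 < m := Nat.pos_of_ne_zero hm.ne_zero
  obtain ⟨C, hC, h⟩ := main_aux m (q * m * Nat.factorial 40) hm
    (Dvd.intro_left q rfl |>.mul_right _) (by positivity) (by
      intro p hp hp40
      exact (hp.dvd_factorial.2 hp40).mul_left _)
  refine ⟨C, hC, ?_⟩
  intro X Y K hX hK hY hYX
  have hX0 : 0 < X := by linarith
  set u : ℝ := X ^ (1 / 24 : ℝ) with hu
  have hu1 : 1 ≤ u := Real.one_le_rpow hX (by norm_num)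
  have pw : ∀ n : ℕ, u ^ n = X ^ ((n : ℝ) / 24) := by
    intro n
    rw [hu, ← Real.rpow_natCast, ← Real.rpow_mul hX0.le]
    congr 1
    ring
  have p24 : u ^ 24 = X := by
    rw [pw]
    norm_num
  have p22 : u ^ 22 = X ^ (11 / 12 : ℝ) := by
    rw [pw]
    norm_num
  have p21 : u ^ 21 = X ^ (7 / 8 : ℝ) := by
    rw [pw]
    norm_num
  have p18 : u ^ 18 = X ^ (3 / 4 : ℝ) := by
    rw [pw]
    norm_num
  have h1 := h u Y K hu1 hK (by rw [p22, p21]; exact hY) (by rw [p24]; exact hYX)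
  rw [p18, p24] at h1
  refine h1.trans ?_
  apply Nat.cast_le.2
  apply Set.ncard_le_ncard
  · rintro N ⟨a1, a2, a3⟩
    refine ⟨a1, a2, a3.trans (Set.ncard_le_ncard ?_ ?_)⟩
    · rintro n ⟨b1, b2, b3, b4⟩
      refine ⟨b1, b2, ?_, b4⟩
      have b5 : q ∣ n + m := dvd_trans ⟨m * Nat.factorial 40, by ring⟩ b3
      have b6 : n + m ≡ k + m [MOD q] :=
        (Nat.modEq_zero_iff_dvd.2 b5).trans (Nat.modEq_zero_iff_dvd.2 hd).symm
      exact Nat.ModEq.add_right_cancel' m b6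
    · apply (Set.finite_Iic ⌊(N : ℝ) + C * (K : ℝ) ^ 4⌋₊).subset
      intro n hn
      exact Nat.le_floor hn.2.1
  · apply (Set.finite_Iic ⌊X + Y⌋₊).subset
    intro N hN
    exact Nat.le_floor hN.2.1

theorem main (q : ℕ) (hq : 0 < q) : ∃ C : ℝ, 1 ≤ C ∧ ∀ k : ℕ, Squarefree k → Stmt q k C := by
  classical
  have h1 : ∀ a : ℕ, ∃ C : ℝ, 1 ≤ C ∧ ∀ k : ℕ, Squarefree k → k % q = a → Stmt q k C := by
    intro a
    by_cases h : ∃ k0 : ℕ, Squarefree k0 ∧ k0 % q = a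
    · obtain ⟨k0, hk0, ha⟩ := h
      obtain ⟨C, hC, hs⟩ := one_class q k0 hq hk0
      refine ⟨C, hC, ?_⟩
      intro k _ hka X Y K hX hK hY hYX
      have hkk : k0 ≡ k [MOD q] := ha.trans hka.symm
      have e : ∀ N : ℕ, {n : ℕ | N ≤ n ∧ (n : ℝ) ≤ N + C * (K : ℝ) ^ 4 ∧ n ≡ k [MOD q] ∧
          Squarefree n ∧ IsCongruent n} = {n : ℕ | N ≤ n ∧ (n : ℝ) ≤ N + C * (K : ℝ) ^ 4 ∧
          n ≡ k0 [MOD q] ∧ Squarefree n ∧ IsCongruent n} := by
        intro N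
        ext n
        constructor
        · rintro ⟨b1, b2, b3, b4⟩
          exact ⟨b1, b2, b3.trans hkk.symm, b4⟩
        · rintro ⟨b1, b2, b3, b4⟩
          exact ⟨b1, b2, b3.trans hkk, b4⟩
      simp only [e]
      exact hs X Y K hX hK hY hYX
    · refine ⟨1, le_refl 1, ?_⟩
      intro k hk hka
      exact absurd ⟨k, hk, hka⟩ h
  choose c hc1 hc using h1
  have hpos : ∀ a ∈ Finset.range q, 0 ≤ c a := fun a _ => by linarith [hc1 a]
  refine ⟨1 + ∑ a ∈ Finset.range q, c a, ?_, ?_⟩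
  · have := Finset.sum_nonneg hpos
    linarith
  · intro k hk
    have hmem : k % q ∈ Finset.range q := Finset.mem_range.2 (Nat.mod_lt _ hq)
    have h2 := Finset.single_le_sum hpos hmem
    exact Stmt.mono (hc1 _) (by linarith) (hc (k % q) k hk rfl)

end Pool.Agent.V7H28.Cl
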