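import Pool.Agent.V7H28.Cl.Large

set_option autoImplicit false

/-!
# The number of bad pairs
-/

namespace Pool.Agent.V7H28.Cl

/-- small primes -/
lemma small_card (M A P : ℕ) (c : ℤ) (s : Finset ℕ) (hs : ∀ x ∈ s, (A < x ∧ x ≤ A + 40 * P) ∧
    ∃ p : ℕ, p.Prime ∧ 40 < p ∧ p ≤ P ∧ ¬ p ∣ M ∧ ¬ (p : ℤ) ∣ c ∧
      (p : ℤ) ^ 2 ∣ (M : ℤ) * (x : ℤ) ^ 2 + c) : (s.card : ℝ) ≤ 4 * P := by
  classical
  rcases le_total P 40 with hP | hP
  · have : s = ∅ := by
      apply Finset.eq_empty_of_forall_notMem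
      intro x hx
      obtain ⟨-, p, -, h1, h2, -⟩ := hs x hx
      omega
    rw [this]
    simp
  set T : ℕ → Finset ℕ := fun p => s.filter fun x =>
    p.Prime ∧ ¬ p ∣ M ∧ ¬ (p : ℤ) ∣ c ∧ (p : ℤ) ^ 2 ∣ (M : ℤ) * (x : ℤ) ^ 2 + c with hT
  have hsub : s ⊆ (Finset.Ioc 40 P).biUnion T := by
    intro x hx
    obtain ⟨-, p, h0, h1, h2, h3, h4, h5⟩ := hs x hx
    rw [Finset.mem_biUnion]
    refine ⟨p, Finset.mem_Ioc.2 ⟨h1, h2⟩, ?_⟩
    rw [hT]
    simp only [Finset.mem_filter]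
    exact ⟨hx, h0, h3, h4, h5⟩
  have hcard : ∀ p ∈ Finset.Ioc 40 P, ((T p).card : ℝ) ≤ 80 * P * (((p : ℕ) : ℝ) ^ 2)⁻¹ + 2 := by
    intro p hp
    obtain ⟨h1, h2⟩ := Finset.mem_Ioc.1 hp
    rcases (T p).eq_empty_or_nonempty with h0 | ⟨x, hx⟩
    · rw [h0]
      simp only [Finset.card_empty, Nat.cast_zero]
      positivity
    have hx' := (Finset.mem_filter.1 hx).2
    have h3 : (T p).card ≤ 2 * (40 * P / p ^ 2 + 1) := by
      apply card_roots p M A (40 * P) c hx'.1 (by omega) hx'.2.1 hx'.2.2.1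
      intro z hz
      have hz' := Finset.mem_filter.1 hz
      exact ⟨(hs z hz'.1).1, hz'.2.2.2.2⟩
    have h4 : ((40 * P / p ^ 2 : ℕ) : ℝ) ≤ (40 * P : ℝ) / (p : ℝ) ^ 2 := by
      have := @Nat.cast_div_le ℝ _ _ _ (40 * P) (p ^ 2)
      push_cast at this
      exact this
    calc ((T p).card : ℝ) ≤ 2 * (((40 * P / p ^ 2 : ℕ) : ℝ) + 1) := by exact_mod_cast h3
      _ ≤ 2 * ((40 * P : ℝ) / (p : ℝ) ^ 2 + 1) := by linarith
      _ = _ := by
        rw [div_eq_mul_inv]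
        ring
  have hsum : ∑ p ∈ Finset.Ioc 40 P, (((p : ℕ) : ℝ) ^ 2)⁻¹ ≤ 1 / 40 := by
    have := @sum_Ioc_inv_sq_le_sub ℝ _ _ _ 40 P (by norm_num) hP
    have h0 : (0 : ℝ) ≤ ((P : ℕ) : ℝ)⁻¹ := by positivity
    refine this.trans ?_
    push_cast
    linarith
  calc (s.card : ℝ) ≤ (((Finset.Ioc 40 P).biUnion T).card : ℝ) := by
        exact_mod_cast Finset.card_le_card hsub
    _ ≤ ∑ p ∈ Finset.Ioc 40 P, ((T p).card : ℝ) := by
        exact_mod_cast Finset.card_biUnion_le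
    _ ≤ ∑ p ∈ Finset.Ioc 40 P, (80 * P * (((p : ℕ) : ℝ) ^ 2)⁻¹ + 2) := Finset.sum_le_sum hcard
    _ = 80 * P * (∑ p ∈ Finset.Ioc 40 P, (((p : ℕ) : ℝ) ^ 2)⁻¹) + ((P - 40 : ℕ) : ℝ) * 2 := by
        rw [Finset.sum_add_distrib, ← Finset.mul_sum]
        simp
    _ ≤ 80 * P * (1 / 40) + (P : ℝ) * 2 := by
        have h1 : ((P - 40 : ℕ) : ℝ) ≤ P := by exact_mod_cast Nat.sub_le P 40
        have h0 : (0 : ℝ) ≤ 80 * P := by positivity
        nlinarith [mul_le_mul_of_nonneg_left hsum h0]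
    _ = _ := by ring

/-- the bad `i` for a given `s`, second kind -/
lemma badB_card (M A P L s : ℕ) (hM : 0 < M) (hA : 0 < A) (hP : 0 < P) (hI : 40 * P ≤ A)
    (hL : L = 5 * M * A ^ 2 / P ^ 2) (hsM : s ^ 2 ≤ M * A ^ 2)
    (T : Finset ℕ) (hT : ∀ x ∈ T, (A < x ∧ x ≤ A + 40 * P) ∧ BadB 40 M x s) :
    (T.card : ℝ) ≤ 8 * P + 20 * (s : ℝ) ^ 2 * Real.sqrt L + 2 * L := by
  classical
  set G : ℤ → Finset ℕ := fun c => T.filter fun x => ∃ p : ℕ, p.Prime ∧ 40 < p ∧ p ≤ P ∧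
    ¬ p ∣ M ∧ ¬ (p : ℤ) ∣ c ∧ (p : ℤ) ^ 2 ∣ (M : ℤ) * (x : ℤ) ^ 2 + c with hG
  set H : ℤ → Finset ℕ := fun c => T.filter fun x => ∃ p : ℕ, p.Prime ∧ P < p ∧
    ¬ (p : ℤ) ∣ c ∧ (p : ℤ) ^ 2 ∣ (M : ℤ) * (x : ℤ) ^ 2 + c with hH
  have hg : ∀ c : ℤ, ((G c).card : ℝ) ≤ 4 * P := by
    intro c
    apply small_card M A P c
    intro x hx
    have h1 := Finset.mem_filter.1 hx
    exact ⟨(hT x h1.1).1, h1.2⟩
  have hh : ∀ c : ℤ, |c| = (s : ℤ) ^ 2 → ((H c).card : ℝ) ≤ 10 * (s : ℝ) ^ 2 * Real.sqrt L + L := by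
    intro c hc
    have h0 : |(c : ℝ)| = (s : ℝ) ^ 2 := by
      have : ((|c| : ℤ) : ℝ) = (((s : ℤ) ^ 2 : ℤ) : ℝ) := by rw [hc]
      rw [Int.cast_abs] at this
      rw [this]
      push_cast
      ring
    rw [← h0]
    apply card_large M A P L c hM hA hP hL
    · rw [hc]
      exact_mod_cast hsM
    · intro x hx
      have h1 := Finset.mem_filter.1 hx
      have h2 := (hT x h1.1).1
      exact ⟨⟨h2.1, by omega⟩, h1.2⟩
  have hsub : T ⊆ (G ((s : ℤ) ^ 2) ∪ H ((s : ℤ) ^ 2)) ∪ (G (-(s : ℤ) ^ 2) ∪ H (-(s : ℤ) ^ 2)) := by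
    intro x hx
    obtain ⟨p, hp, h40, hps, hd⟩ := (hT x hx).2
    have hpZ : Prime (p : ℤ) := Nat.prime_iff_prime_int.1 hp
    have hps2 : ¬ (p : ℤ) ∣ (s : ℤ) ^ 2 := by
      intro h
      exact hps (Int.natCast_dvd_natCast.1 (hpZ.dvd_of_dvd_pow h))
    have hps3 : ¬ (p : ℤ) ∣ -(s : ℤ) ^ 2 := by
      rw [dvd_neg]
      exact hps2
    have gen : ∀ c : ℤ, ¬ (p : ℤ) ∣ c → (p : ℤ) ^ 2 ∣ (M : ℤ) * (x : ℤ) ^ 2 + c →
        x ∈ G c ∪ H c := by
      intro c hpc hdc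
      rw [Finset.mem_union]
      have hpM : ¬ p ∣ M := by
        intro h
        apply hpc
        have h1 : (p : ℤ) ∣ (M : ℤ) * (x : ℤ) ^ 2 := (Int.natCast_dvd_natCast.2 h).mul_right _
        have h2 : (p : ℤ) ∣ (M : ℤ) * (x : ℤ) ^ 2 + c := (dvd_pow_self _ (by norm_num)).trans hdc
        exact (dvd_add_right h1).1 h2
      rcases le_or_gt p P with h3 | h3
      · left
        rw [hG]
        simp only [Finset.mem_filter]
        exact ⟨hx, p, hp, h40, h3, hpM, hpc, hdc⟩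
      · right
        rw [hH]
        simp only [Finset.mem_filter]
        exact ⟨hx, p, hp, h3, hpc, hdc⟩
    rw [Finset.mem_union]
    rcases hd with hd | hd
    · exact Or.inl (gen _ hps2 hd)
    · exact Or.inr (gen _ hps3 hd)
  have h1 : (T.card : ℝ) ≤ ((G ((s : ℤ) ^ 2)).card + (H ((s : ℤ) ^ 2)).card) +
      ((G (-(s : ℤ) ^ 2)).card + (H (-(s : ℤ) ^ 2)).card) := by
    have h2 : T.card ≤ ((G ((s : ℤ) ^ 2)).card + (H ((s : ℤ) ^ 2)).card) +
      ((G (-(s : ℤ) ^ 2)).card + (H (-(s : ℤ) ^ 2)).card) := by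
      refine (Finset.card_le_card hsub).trans ((Finset.card_union_le _ _).trans ?_)
      exact add_le_add (Finset.card_union_le _ _) (Finset.card_union_le _ _)
    exact_mod_cast h2
  have a1 : |(s : ℤ) ^ 2| = (s : ℤ) ^ 2 := abs_of_nonneg (by positivity)
  have a2 : |-(s : ℤ) ^ 2| = (s : ℤ) ^ 2 := by rw [abs_neg, a1]
  have := hg ((s : ℤ) ^ 2)
  have := hg (-(s : ℤ) ^ 2)
  have := hh ((s : ℤ) ^ 2) a1
  have := hh (-(s : ℤ) ^ 2) a2
  linarith

/-- the bad pairs of the first kind -/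
lemma badA_card (Q A I J S : ℕ) (hS : S = Q * J + 1) (T : Finset (ℕ × ℕ))
    (hT : ∀ x ∈ T, (A < x.1 ∧ x.1 ≤ A + I) ∧ (0 < x.2 ∧ x.2 ≤ J) ∧ BadA 40 x.1 (Q * x.2 + 1)) :
    (T.card : ℝ) ≤ (I : ℝ) * J / 40 + (I + J) * (2 * Real.sqrt S) + S := by
  classical
  set U : ℕ → Finset (ℕ × ℕ) := fun p => T.filter fun x => p.Prime ∧ p ∣ x.1 ∧ p ∣ Q * x.2 + 1 with hU
  have hsub : T ⊆ (Finset.Ioc 40 S).biUnion U := by
    intro x hx
    obtain ⟨h1, ⟨h2, h3⟩, p, hp, h4, h5, h6⟩ := hT x hx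
    rw [Finset.mem_biUnion]
    refine ⟨p, Finset.mem_Ioc.2 ⟨h4, ?_⟩, ?_⟩
    · have h7 : p ≤ Q * x.2 + 1 := Nat.le_of_dvd (by omega) h6
      have h8 : Q * x.2 ≤ Q * J := Nat.mul_le_mul_left _ h3
      omega
    · rw [hU]
      simp only [Finset.mem_filter]
      exact ⟨hx, hp, h5, h6⟩
  have hcard : ∀ p ∈ Finset.Ioc 40 S, ((U p).card : ℝ) ≤
      (I : ℝ) * J * (((p : ℕ) : ℝ) ^ 2)⁻¹ + (I + J) * (1 / Real.sqrt p) + 1 := by
    intro p hp
    obtain ⟨h40, hpS⟩ := Finset.mem_Ioc.1 hp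
    have hp0 : (0 : ℝ) < p := by
      have : 0 < p := by omega
      exact_mod_cast this
    rcases (U p).eq_empty_or_nonempty with h0 | ⟨x, hx⟩
    · rw [h0]
      simp only [Finset.card_empty, Nat.cast_zero]
      positivity
    have hpp : p.Prime := (Finset.mem_filter.1 hx).2.1
    have c1 : ((U p).image Prod.fst).card ≤ I / p + 1 := by
      apply card_ap _ A I p hpp.pos
      · intro z hz
        obtain ⟨w, hw, rfl⟩ := Finset.mem_image.1 hz
        exact (hT w (Finset.mem_filter.1 hw).1).1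
      · intro z hz z' hz' _
        obtain ⟨w, hw, rfl⟩ := Finset.mem_image.1 hz
        obtain ⟨w', hw', rfl⟩ := Finset.mem_image.1 hz'
        exact Nat.dvd_sub (Finset.mem_filter.1 hw').2.2.1 (Finset.mem_filter.1 hw).2.2.1
    have c2 : ((U p).image Prod.snd).card ≤ J / p + 1 := by
      apply card_ap _ 0 J p hpp.pos
      · intro z hz
        obtain ⟨w, hw, rfl⟩ := Finset.mem_image.1 hz
        have := (hT w (Finset.mem_filter.1 hw).1).2.1
        omega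
      · intro z hz z' hz' hzz
        obtain ⟨w, hw, rfl⟩ := Finset.mem_image.1 hz
        obtain ⟨w', hw', rfl⟩ := Finset.mem_image.1 hz'
        have g1 := (Finset.mem_filter.1 hw).2.2.2
        have g2 := (Finset.mem_filter.1 hw').2.2.2
        have g3 := Nat.dvd_sub g2 g1
        have g4 : Q * w'.2 + 1 - (Q * w.2 + 1) = Q * (w'.2 - w.2) := by
          rw [Nat.mul_sub]
          omega
        rw [g4] at g3
        have g5 : Nat.Coprime p Q := by
          rw [Nat.Prime.coprime_iff_not_dvd hpp]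
          intro g6
          have g7 : p ∣ 1 := (Nat.dvd_add_right (g6.mul_right w.2)).1 g1
          exact hpp.one_lt.ne' (Nat.dvd_one.1 g7)
        exact g5.dvd_of_dvd_mul_left g3
    have c3 : (U p).card ≤ (I / p + 1) * (J / p + 1) := by
      have h1 : U p ⊆ ((U p).image Prod.fst) ×ˢ ((U p).image Prod.snd) := by
        intro w hw
        rw [Finset.mem_product]
        exact ⟨Finset.mem_image_of_mem _ hw, Finset.mem_image_of_mem _ hw⟩
      refine (Finset.card_le_card h1).trans ?_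
      rw [Finset.card_product]
      exact Nat.mul_le_mul c1 c2
    have d1 : ((I / p : ℕ) : ℝ) ≤ (I : ℝ) / p := Nat.cast_div_le
    have d2 : ((J / p : ℕ) : ℝ) ≤ (J : ℝ) / p := Nat.cast_div_le
    have d3 : (1 : ℝ) / p ≤ 1 / Real.sqrt p := by
      apply one_div_le_one_div_of_le (Real.sqrt_pos.2 hp0)
      have h1 : (1 : ℝ) ≤ p := by exact_mod_cast hpp.one_lt.le
      have h2 : 1 ≤ Real.sqrt p := Real.one_le_sqrt.2 h1
      have h3 : Real.sqrt p * Real.sqrt p = p := Real.mul_self_sqrt hp0.le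
      nlinarith
    calc ((U p).card : ℝ) ≤ (((I / p : ℕ) : ℝ) + 1) * (((J / p : ℕ) : ℝ) + 1) := by exact_mod_cast c3
      _ ≤ ((I : ℝ) / p + 1) * ((J : ℝ) / p + 1) := by
          apply mul_le_mul (by linarith) (by linarith) (by positivity) (by positivity)
      _ = (I : ℝ) * J * (((p : ℕ) : ℝ) ^ 2)⁻¹ + (I + J) * (1 / p) + 1 := by
          field_simp
          ring
      _ ≤ _ := by
          have h1 : (0 : ℝ) ≤ (I : ℝ) + J := by positivity
          have := mul_le_mul_of_nonneg_left d3 h1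
          linarith
  have hsum : ∑ p ∈ Finset.Ioc 40 S, (((p : ℕ) : ℝ) ^ 2)⁻¹ ≤ 1 / 40 := by
    rcases le_total 40 S with hP | hP
    · have := @sum_Ioc_inv_sq_le_sub ℝ _ _ _ 40 S (by norm_num) hP
      have h0 : (0 : ℝ) ≤ ((S : ℕ) : ℝ)⁻¹ := by positivity
      refine this.trans ?_
      push_cast
      linarith
    · rw [Finset.Ioc_eq_empty (by omega)]
      simp
  have hsum2 : ∑ p ∈ Finset.Ioc 40 S, 1 / Real.sqrt p ≤ 2 * Real.sqrt S := by
    refine le_trans ?_ (sum_inv_sqrt S)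
    apply Finset.sum_le_sum_of_subset_of_nonneg
    · intro p hp
      rw [Finset.mem_Ioc] at hp
      rw [Finset.mem_Icc]
      omega
    · intro p _ _
      positivity
  calc (T.card : ℝ) ≤ (((Finset.Ioc 40 S).biUnion U).card : ℝ) := by
        exact_mod_cast Finset.card_le_card hsub
    _ ≤ ∑ p ∈ Finset.Ioc 40 S, ((U p).card : ℝ) := by
        exact_mod_cast Finset.card_biUnion_le
    _ ≤ ∑ p ∈ Finset.Ioc 40 S, ((I : ℝ) * J * (((p : ℕ) : ℝ) ^ 2)⁻¹ +
          (I + J) * (1 / Real.sqrt p) + 1) := Finset.sum_le_sum hcard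
    _ = (I : ℝ) * J * (∑ p ∈ Finset.Ioc 40 S, (((p : ℕ) : ℝ) ^ 2)⁻¹) +
          (I + J) * (∑ p ∈ Finset.Ioc 40 S, 1 / Real.sqrt p) + ((S - 40 : ℕ) : ℝ) := by
        rw [Finset.sum_add_distrib, Finset.sum_add_distrib, ← Finset.mul_sum, ← Finset.mul_sum]
        simp
    _ ≤ (I : ℝ) * J * (1 / 40) + (I + J) * (2 * Real.sqrt S) + S := by
        have h1 : ((S - 40 : ℕ) : ℝ) ≤ S := by exact_mod_cast Nat.sub_le S 40
        have h2 : (0 : ℝ) ≤ (I : ℝ) * J := by positivity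
        have h3 : (0 : ℝ) ≤ (I : ℝ) + J := by positivity
        have h4 := mul_le_mul_of_nonneg_left hsum h2
        have h5 := mul_le_mul_of_nonneg_left hsum2 h3
        linarith
    _ = _ := by ring

/-- averaging -/
lemma pigeon (T1 T2 : Finset ℕ) (bad : ℕ → ℕ → Prop) [∀ i j, Decidable (bad i j)] (hT2 : 0 < T2.card)
    (h : 2 * ((T1 ×ˢ T2).filter fun x => bad x.1 x.2).card ≤ T1.card * T2.card) :
    T1.card ≤ 4 * (T1.filter fun i => T2.card ≤ 4 * (T2.filter fun j => ¬ bad i j).card).card := by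
  classical
  set g : ℕ → ℕ := fun i => (T2.filter fun j => ¬ bad i j).card with hg
  set G := T1.filter fun i => T2.card ≤ 4 * g i with hG
  have h1 : ∑ i ∈ T1, g i + ((T1 ×ˢ T2).filter fun x => bad x.1 x.2).card = T1.card * T2.card := by
    have e1 : ((T1 ×ˢ T2).filter fun x => bad x.1 x.2).card =
        ∑ i ∈ T1, (T2.filter fun j => bad i j).card := by
      rw [Finset.card_filter, Finset.sum_product]
      apply Finset.sum_congr rfl
      intro i _
      rw [Finset.card_filter]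
    rw [e1, ← Finset.sum_add_distrib]
    have : ∀ i ∈ T1, g i + (T2.filter fun j => bad i j).card = T2.card := by
      intro i _
      have := Finset.card_filter_add_card_filter_not (s := T2) (fun j => bad i j)
      show (T2.filter fun j => ¬ bad i j).card + _ = _
      omega
    rw [Finset.sum_congr rfl this, Finset.sum_const, smul_eq_mul]
  have h2 : 4 * ∑ i ∈ T1, g i ≤ 4 * (G.card * T2.card) + T1.card * T2.card := by
    rw [← Finset.sum_filter_add_sum_filter_not T1 (fun i => T2.card ≤ 4 * g i)]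
    have a1 : ∑ i ∈ T1.filter (fun i => T2.card ≤ 4 * g i), g i ≤ G.card * T2.card := by
      rw [← smul_eq_mul]
      apply Finset.sum_le_card_nsmul
      intro i _
      exact Finset.card_filter_le _ _
    have a2 : 4 * ∑ i ∈ T1.filter (fun i => ¬ T2.card ≤ 4 * g i), g i ≤ T1.card * T2.card := by
      rw [Finset.mul_sum]
      calc ∑ i ∈ T1.filter (fun i => ¬ T2.card ≤ 4 * g i), 4 * g i ≤
          ∑ i ∈ T1.filter (fun i => ¬ T2.card ≤ 4 * g i), T2.card := by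
            apply Finset.sum_le_sum
            intro i hi
            have := (Finset.mem_filter.1 hi).2
            omega
        _ = (T1.filter (fun i => ¬ T2.card ≤ 4 * g i)).card * T2.card := by
            rw [Finset.sum_const, smul_eq_mul]
        _ ≤ _ := Nat.mul_le_mul_right _ (Finset.card_filter_le _ _)
    nlinarith
  have h3 : T1.card * T2.card ≤ 4 * (G.card * T2.card) := by nlinarith
  have h4 : T1.card * T2.card ≤ (4 * G.card) * T2.card := by nlinarith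
  exact Nat.le_of_mul_le_mul_right h4 hT2

end Pool.Agent.V7H28.Cl
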