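import Pool.Agent.V7H28.Cl.Pairs

set_option autoImplicit false

/-!
# Clusters of squarefree congruent numbers
-/

namespace Pool.Agent.V7H28.Cl

lemma nn_dvd (m Q i j : ℕ) (h : (Q * j + 1) ^ 2 ≤ m * Q ^ 2 * i ^ 2) : Q ∣ nn m Q i j + m := by
  have h1 := nn_eq m Q i j h
  have h2 : nn m Q i j + m + Q * (m * (Q ^ 3 * j ^ 4 + 4 * Q ^ 2 * j ^ 3 + 6 * Q * j ^ 2 + 4 * j)) =
      Q * (m ^ 3 * Q ^ 3 * i ^ 4) := by
    have h3 : m * (Q * j + 1) ^ 4 =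
        m + Q * (m * (Q ^ 3 * j ^ 4 + 4 * Q ^ 2 * j ^ 3 + 6 * Q * j ^ 2 + 4 * j)) := by ring
    rw [h3] at h1
    have h4 : m ^ 3 * (Q * i) ^ 4 = Q * (m ^ 3 * Q ^ 3 * i ^ 4) := by ring
    rw [h4] at h1
    rw [← h1]
    ring
  have h3 : Q ∣ nn m Q i j + m +
      Q * (m * (Q ^ 3 * j ^ 4 + 4 * Q ^ 2 * j ^ 3 + 6 * Q * j ^ 2 + 4 * j)) := by
    rw [h2]
    exact dvd_mul_right _ _
  exact (Nat.dvd_add_left (dvd_mul_right _ _)).1 h3

/-- one cluster: the numbers for a fixed `i` -/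
lemma cluster (m Q A J i : ℕ) (hm0 : 0 < m) (hQ0 : 0 < Q)
    (hSA : (Q * J + 1) ^ 2 ≤ m * Q ^ 2 * A ^ 2) (hi : A < i) (R : ℝ)
    (hR : ((m * (Q * J + 1) ^ 4 : ℕ) : ℝ) ≤ R) (K : ℕ)
    (hK : 4 * K ≤ J)
    (hg : J ≤ 4 * ((Finset.Ioc 0 J).filter fun j => Squarefree (nn m Q i j)).card) :
    K ≤ {n : ℕ | m ^ 3 * (Q * i) ^ 4 - m * (Q * J + 1) ^ 4 ≤ n ∧
      (n : ℝ) ≤ ((m ^ 3 * (Q * i) ^ 4 - m * (Q * J + 1) ^ 4 : ℕ) : ℝ) + R ∧ Q ∣ n + m ∧
      Squarefree n ∧ IsCongruent n}.ncard := by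
  classical
  have hM0 : 0 < m * Q ^ 2 := by positivity
  have hlt : ∀ j, j ≤ J → (Q * j + 1) ^ 2 < m * Q ^ 2 * i ^ 2 := by
    intro j hj
    have h1 : Q * j + 1 ≤ Q * J + 1 := by
      have := Nat.mul_le_mul_left Q hj
      omega
    have h8 : (Q * j + 1) ^ 2 ≤ (Q * J + 1) ^ 2 := Nat.pow_le_pow_left h1 2
    have h10 : A ^ 2 < i ^ 2 := Nat.pow_lt_pow_left hi (by norm_num)
    have h11 : m * Q ^ 2 * A ^ 2 < m * Q ^ 2 * i ^ 2 := Nat.mul_lt_mul_of_pos_left h10 hM0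
    exact lt_of_le_of_lt (h8.trans hSA) h11
  set F := (Finset.Ioc 0 J).filter fun j => Squarefree (nn m Q i j) with hF
  have hKF : K ≤ F.card := by omega
  have hinj : Set.InjOn (fun j => nn m Q i j) (F : Set ℕ) := by
    intro j hj j' hj' he
    have he' : nn m Q i j = nn m Q i j' := he
    have g1 := (Finset.mem_Ioc.1 (Finset.mem_filter.1 hj).1).2
    have g2 := (Finset.mem_Ioc.1 (Finset.mem_filter.1 hj').1).2
    have e1 := nn_eq m Q i j (hlt j g1).le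
    have e2 := nn_eq m Q i j' (hlt j' g2).le
    have e3 : m * (Q * j + 1) ^ 4 = m * (Q * j' + 1) ^ 4 := by omega
    have e4 : (Q * j + 1) ^ 4 = (Q * j' + 1) ^ 4 := Nat.eq_of_mul_eq_mul_left hm0 e3
    have e5 : Q * j + 1 = Q * j' + 1 := Nat.pow_left_injective (by norm_num : 4 ≠ 0) e4
    have e6 : Q * j = Q * j' := by omega
    exact Nat.eq_of_mul_eq_mul_left hQ0 e6
  have hcard : (F.image fun j => nn m Q i j).card = F.card := Finset.card_image_of_injOn hinj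
  rw [← hcard, ← Set.ncard_coe_finset] at hKF
  refine hKF.trans (Set.ncard_le_ncard ?_ ?_)
  · intro n hn
    rw [Finset.coe_image] at hn
    obtain ⟨j, hj, rfl⟩ := hn
    obtain ⟨hj1, hj2⟩ := Finset.mem_filter.1 hj
    have hjJ := (Finset.mem_Ioc.1 hj1).2
    have hl := hlt j hjJ
    have e1 := nn_eq m Q i j hl.le
    have h1 : Q * j + 1 ≤ Q * J + 1 := by
      have := Nat.mul_le_mul_left Q hjJ
      omega
    have h2 : m * (Q * j + 1) ^ 4 ≤ m * (Q * J + 1) ^ 4 :=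
      Nat.mul_le_mul_left m (Nat.pow_le_pow_left h1 4)
    refine ⟨by show _ ≤ nn m Q i j; omega, ?_, nn_dvd m Q i j hl.le, hj2, ?_⟩
    · have h3 : nn m Q i j ≤ (m ^ 3 * (Q * i) ^ 4 - m * (Q * J + 1) ^ 4) + m * (Q * J + 1) ^ 4 := by
        omega
      have h4 : ((nn m Q i j : ℕ) : ℝ) ≤ ((m ^ 3 * (Q * i) ^ 4 - m * (Q * J + 1) ^ 4 : ℕ) : ℝ) +
          ((m * (Q * J + 1) ^ 4 : ℕ) : ℝ) := by exact_mod_cast h3
      show ((nn m Q i j : ℕ) : ℝ) ≤ _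
      linarith
    · apply cong_of m (Q * i) (Q * j + 1) (nn m Q i j) hm0
      · have : 0 < i := by omega
        positivity
      · omega
      · calc (Q * j + 1) ^ 2 < m * Q ^ 2 * i ^ 2 := hl
          _ = m * (Q * i) ^ 2 := by ring
      · exact e1
  · apply (Set.finite_Iic ⌊((m ^ 3 * (Q * i) ^ 4 - m * (Q * J + 1) ^ 4 : ℕ) : ℝ) + R⌋₊).subset
    intro n hn
    exact Nat.le_floor hn.2.1

lemma pow4_bound (α h : ℝ) (h0 : 0 ≤ h) (hh : h ≤ α) :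
    (α + h) ^ 4 ≤ α ^ 4 + 15 * α ^ 3 * h := by
  have hα : 0 ≤ α := h0.trans hh
  have e1 : h * h ≤ α * h := mul_le_mul_of_nonneg_right hh h0
  have f1 : α ^ 2 * (h * h) ≤ α ^ 2 * (α * h) := mul_le_mul_of_nonneg_left e1 (by positivity)
  have f2 : (α * h) * (h * h) ≤ (α * h) * (α * h) := mul_le_mul_of_nonneg_left e1 (by positivity)
  have f3 : (h * h) * (h * h) ≤ (h * h) * (α * h) := mul_le_mul_of_nonneg_left e1 (by positivity)
  have e : (α + h) ^ 4 = α ^ 4 + 4 * (α ^ 2 * (α * h)) + 6 * (α ^ 2 * (h * h)) +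
    4 * ((α * h) * (h * h)) + (h * h) * (h * h) := by ring
  have e' : 15 * α ^ 3 * h = 15 * (α ^ 2 * (α * h)) := by ring
  have g1 : (α * h) * (α * h) = α ^ 2 * (h * h) := by ring
  have g2 : (h * h) * (α * h) = (α * h) * (h * h) := by ring
  rw [e, e']
  linarith

theorem main_aux (m Q : ℕ) (hm : Squarefree m) (hmQ : m ∣ Q) (hQ0 : 0 < Q)
    (hQ : ∀ p : ℕ, p.Prime → p ≤ 40 → p ∣ Q) :
    ∃ C : ℝ, 1 ≤ C ∧ ∀ (u Y : ℝ) (K : ℕ), 1 ≤ u → 1 ≤ K → C * (u ^ 22 + K * u ^ 21) ≤ Y →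
      Y ≤ u ^ 24 → Y / (C * u ^ 18) ≤
        (({N : ℕ | u ^ 24 ≤ N ∧ (N : ℝ) ≤ u ^ 24 + Y ∧
          K ≤ {n : ℕ | N ≤ n ∧ (n : ℝ) ≤ N + C * (K : ℝ) ^ 4 ∧ Q ∣ n + m ∧ Squarefree n ∧
            IsCongruent n}.ncard}.ncard : ℕ) : ℝ) := by
  classical
  have hm0 : 0 < m := Nat.pos_of_ne_zero hm.ne_zero
  have hmR : (1 : ℝ) ≤ m := by exact_mod_cast hm0
  have hQR : (1 : ℝ) ≤ Q := by exact_mod_cast hQ0
  obtain ⟨W, hW⟩ : ∃ W : ℝ, W = (m : ℝ) ^ 3 * (Q : ℝ) ^ 4 := ⟨_, rfl⟩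
  have hW1 : 1 ≤ W := by
    rw [hW]
    have h1 : (1 : ℝ) ≤ (m : ℝ) ^ 3 := one_le_pow₀ hmR
    have h2 : (1 : ℝ) ≤ (Q : ℝ) ^ 4 := one_le_pow₀ hQR
    exact one_le_mul_of_one_le_of_one_le h1 h2
  have hW0 : 0 < W := by linarith
  obtain ⟨M, hM⟩ : ∃ M : ℝ, M = (m : ℝ) * (Q : ℝ) ^ 2 := ⟨_, rfl⟩
  have hM1 : 1 ≤ M := by
    rw [hM]
    have h2 : (1 : ℝ) ≤ (Q : ℝ) ^ 2 := one_le_pow₀ hQR
    exact one_le_mul_of_one_le_of_one_le hmR h2
  obtain ⟨q, hq⟩ : ∃ q : ℝ, q = 1600 * (Q : ℝ) ^ 2 := ⟨_, rfl⟩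
  have hq1 : 1 ≤ q := by
    rw [hq]
    have h2 : (1 : ℝ) ≤ (Q : ℝ) ^ 2 := one_le_pow₀ hQR
    linarith
  obtain ⟨B, hB⟩ : ∃ B : ℝ, B = 12 * M * q := ⟨_, rfl⟩
  have hMq : 1 ≤ M * q := one_le_mul_of_one_le_of_one_le hM1 hq1
  have hB1 : 1 ≤ B := by
    rw [hB, mul_assoc]
    linarith
  have hB0 : 0 ≤ B := by linarith
  obtain ⟨c0, hc0⟩ : ∃ c0 : ℝ, c0 = 9600 * W := ⟨_, rfl⟩
  have hc1 : 1 ≤ c0 := by
    rw [hc0]
    linarith
  obtain ⟨C, hC⟩ : ∃ C : ℝ, C = 2 * c0 * B + m * q ^ 4 + q * W := ⟨_, rfl⟩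
  have hq4 : (1 : ℝ) ≤ q ^ 4 := one_le_pow₀ hq1
  have hmq : (1 : ℝ) ≤ m * q ^ 4 := one_le_mul_of_one_le_of_one_le hmR hq4
  have hqW : (1 : ℝ) ≤ q * W := one_le_mul_of_one_le_of_one_le hq1 hW1
  have hcB : (1 : ℝ) ≤ c0 * B := one_le_mul_of_one_le_of_one_le hc1 hB1
  have hCa : 2 * c0 * B ≤ C := by rw [hC]; linarith
  have hCb : m * q ^ 4 ≤ C := by rw [hC]; linarith
  have hCc : q * W ≤ C := by rw [hC]; linarith
  have hC1 : 1 ≤ C := by linarith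
  refine ⟨C, hC1, ?_⟩
  intro u Y K hu hK hY hYu
  have hKR : (1 : ℝ) ≤ K := by exact_mod_cast hK
  have hu0 : 0 < u := by linarith
  have hupow : ∀ n : ℕ, (1 : ℝ) ≤ u ^ n := fun n => one_le_pow₀ hu
  have hupos : ∀ n : ℕ, (0 : ℝ) < u ^ n := fun n => pow_pos hu0 n
  -- K is small
  have hCK : C * K ≤ u ^ 3 := by
    have h1 : C * K * u ^ 21 ≤ u ^ 3 * u ^ 21 := by
      have h2 : 0 ≤ C * u ^ 22 := by
        have := hupos 22
        positivity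
      calc C * K * u ^ 21 ≤ C * u ^ 22 + C * K * u ^ 21 := by linarith
        _ = C * (u ^ 22 + K * u ^ 21) := by ring
        _ ≤ Y := hY
        _ ≤ u ^ 24 := hYu
        _ = u ^ 3 * u ^ 21 := by ring
    exact le_of_mul_le_mul_right h1 (hupos 21)
  have hY0 : 0 < Y := by
    have h1 := hupos 22
    have h2 := hupos 21
    have : 0 < C * (u ^ 22 + K * u ^ 21) := by positivity
    linarith
  -- the parameter P
  obtain ⟨P, hPdef⟩ : ∃ P : ℕ, P = ⌊Y / (c0 * u ^ 18)⌋₊ := ⟨_, rfl⟩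
  have hcu : 0 < c0 * u ^ 18 := by
    have := hupos 18
    positivity
  have hPup : (P : ℝ) ≤ Y / (c0 * u ^ 18) := by
    rw [hPdef]
    exact Nat.floor_le (by positivity)
  have hratio : 2 * B * (u ^ 4 + K * u ^ 3) ≤ Y / (c0 * u ^ 18) := by
    rw [le_div_iff₀ hcu]
    have h1 : 0 ≤ u ^ 22 + K * u ^ 21 := by
      have := hupos 22
      have := hupos 21
      positivity
    calc 2 * B * (u ^ 4 + K * u ^ 3) * (c0 * u ^ 18) = 2 * c0 * B * (u ^ 22 + K * u ^ 21) := by ring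
      _ ≤ C * (u ^ 22 + K * u ^ 21) := mul_le_mul_of_nonneg_right hCa h1
      _ ≤ Y := hY
  have hratio1 : 2 ≤ Y / (c0 * u ^ 18) := by
    have h1 := hupow 4
    have h2 : 0 ≤ K * u ^ 3 := by
      have := hupos 3
      positivity
    have h3 : 1 ≤ B * (u ^ 4 + K * u ^ 3) := one_le_mul_of_one_le_of_one_le hB1 (by linarith)
    rw [mul_assoc] at hratio
    linarith
  have hPlo : Y / (c0 * u ^ 18) / 2 ≤ P := by
    have h1 : Y / (c0 * u ^ 18) < P + 1 := by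
      rw [hPdef]
      exact Nat.lt_floor_add_one _
    linarith
  have hPB : B * (u ^ 4 + K * u ^ 3) ≤ P := by linarith
  have hP1 : (1 : ℝ) ≤ P := by linarith
  have hP0 : 0 < P := by exact_mod_cast (by linarith : (0 : ℝ) < P)
  have hPu4 : B * u ^ 4 ≤ P := by
    have h2 : 0 ≤ B * (K * u ^ 3) := by
      have := hupos 3
      positivity
    rw [mul_add] at hPB
    linarith
  have hPu3 : B * (K * u ^ 3) ≤ P := by
    have h2 : 0 ≤ B * u ^ 4 := by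
      have := hupos 4
      positivity
    rw [mul_add] at hPB
    linarith
  -- the parameter J
  obtain ⟨J, hJdef⟩ : ∃ J : ℕ, J = 800 * Q * K := ⟨_, rfl⟩
  have hJR : (J : ℝ) = 800 * Q * K := by rw [hJdef]; push_cast; ring
  have hJ0 : 0 < J := by rw [hJdef]; positivity
  have hSR : ((Q * J + 1 : ℕ) : ℝ) ≤ q * K := by
    push_cast
    rw [hJR, hq]
    have h2 : (1 : ℝ) ≤ (Q : ℝ) ^ 2 * K :=
      one_le_mul_of_one_le_of_one_le (one_le_pow₀ hQR) hKR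
    have e1 : (Q : ℝ) * (800 * Q * K) = 800 * ((Q : ℝ) ^ 2 * K) := by ring
    have e2 : 1600 * (Q : ℝ) ^ 2 * K = 1600 * ((Q : ℝ) ^ 2 * K) := by ring
    rw [e1, e2]
    linarith
  have hS0 : (0 : ℝ) < ((Q * J + 1 : ℕ) : ℝ) := by positivity
  -- the top
  have hmS : ((m * (Q * J + 1) ^ 4 : ℕ) : ℝ) ≤ C * (K : ℝ) ^ 4 := by
    rw [Nat.cast_mul, Nat.cast_pow]
    calc (m : ℝ) * ((Q * J + 1 : ℕ) : ℝ) ^ 4 ≤ m * (q * K) ^ 4 := by
          apply mul_le_mul_of_nonneg_left _ (by positivity)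
          exact pow_le_pow_left₀ hS0.le hSR 4
      _ = (m * q ^ 4) * (K : ℝ) ^ 4 := by ring
      _ ≤ _ := mul_le_mul_of_nonneg_right hCb (by positivity)
  have hmSu : ((m * (Q * J + 1) ^ 4 : ℕ) : ℝ) ≤ u ^ 24 := by
    calc ((m * (Q * J + 1) ^ 4 : ℕ) : ℝ) ≤ C * (K : ℝ) ^ 4 := hmS
      _ ≤ (C * K) ^ 4 := by
          rw [mul_pow]
          apply mul_le_mul_of_nonneg_right _ (by positivity)
          exact le_self_pow₀ hC1 (by norm_num)
      _ ≤ (u ^ 3) ^ 4 := pow_le_pow_left₀ (by positivity) hCK 4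
      _ = u ^ 12 := by ring
      _ ≤ u ^ 24 := pow_le_pow_right₀ hu (by norm_num)
  -- the parameter A
  obtain ⟨α, hα0, hα⟩ : ∃ α : ℝ, 0 ≤ α ∧ W * α ^ 4 = u ^ 24 + ((m * (Q * J + 1) ^ 4 : ℕ) : ℝ) := by
    refine ⟨Real.sqrt (Real.sqrt ((u ^ 24 + ((m * (Q * J + 1) ^ 4 : ℕ) : ℝ)) / W)),
      Real.sqrt_nonneg _, ?_⟩
    have h0 : 0 ≤ (u ^ 24 + ((m * (Q * J + 1) ^ 4 : ℕ) : ℝ)) / W := by
      have := hupos 24
      positivity
    have h1 : Real.sqrt (Real.sqrt ((u ^ 24 + ((m * (Q * J + 1) ^ 4 : ℕ) : ℝ)) / W)) ^ 4 =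
        (u ^ 24 + ((m * (Q * J + 1) ^ 4 : ℕ) : ℝ)) / W := by
      rw [show (4 : ℕ) = 2 * 2 by norm_num, pow_mul, Real.sq_sqrt (Real.sqrt_nonneg _), Real.sq_sqrt h0]
    rw [h1]
    field_simp
  have hαup : α ≤ 2 * u ^ 6 := by
    apply (pow_le_pow_iff_left₀ hα0 (by positivity) (by norm_num : (4 : ℕ) ≠ 0)).1
    have h1 : α ^ 4 ≤ W * α ^ 4 := le_mul_of_one_le_left (by positivity) hW1
    calc α ^ 4 ≤ W * α ^ 4 := h1
      _ ≤ u ^ 24 + u ^ 24 := by linarith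
      _ ≤ 16 * u ^ 24 := by
          have := hupos 24
          linarith
      _ = (2 * u ^ 6) ^ 4 := by ring
  have hαlo : u ^ 6 / W ≤ α := by
    apply (pow_le_pow_iff_left₀ (by positivity) hα0 (by norm_num : (4 : ℕ) ≠ 0)).1
    rw [div_pow, div_le_iff₀ (by positivity)]
    have h1 : u ^ 24 ≤ W * α ^ 4 := by
      have : (0 : ℝ) ≤ ((m * (Q * J + 1) ^ 4 : ℕ) : ℝ) := by positivity
      linarith
    calc (u ^ 6) ^ 4 = u ^ 24 := by ring
      _ ≤ W * α ^ 4 := h1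
      _ ≤ W ^ 4 * α ^ 4 := by
          apply mul_le_mul_of_nonneg_right _ (by positivity)
          exact le_self_pow₀ hW1 (by norm_num)
      _ = _ := by ring
  obtain ⟨A, hAdef⟩ : ∃ A : ℕ, A = ⌈α⌉₊ := ⟨_, rfl⟩
  have hAlo : α ≤ A := by rw [hAdef]; exact Nat.le_ceil _
  have hAup : (A : ℝ) < α + 1 := by rw [hAdef]; exact Nat.ceil_lt_add_one hα0
  have hA3 : (A : ℝ) ≤ 3 * u ^ 6 := by
    have := hupow 6
    linarith
  -- `80 P ≤ α`
  have h80 : 9600 * W * u ^ 18 * P ≤ Y := by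
    have h1 := (le_div_iff₀ hcu).1 hPup
    rw [hc0] at h1
    linarith
  have h80' : 80 * (P : ℝ) ≤ α := by
    have h1 : 9600 * W * u ^ 18 * P ≤ u ^ 6 * u ^ 18 := by
      calc 9600 * W * u ^ 18 * P ≤ Y := h80
        _ ≤ u ^ 24 := hYu
        _ = u ^ 6 * u ^ 18 := by ring
    have h2 : 9600 * W * P ≤ u ^ 6 := by
      apply le_of_mul_le_mul_right _ (hupos 18)
      linarith
    have h3 : 80 * (P : ℝ) ≤ u ^ 6 / W := by
      rw [le_div_iff₀ hW0]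
      have h4 : 0 ≤ W * P := by positivity
      calc 80 * (P : ℝ) * W = 80 * (W * P) := by ring
        _ ≤ 9600 * (W * P) := by linarith
        _ = 9600 * W * P := by ring
        _ ≤ u ^ 6 := h2
    linarith
  have hA40 : 40 * P ≤ A := by
    have : (40 : ℝ) * P ≤ A := by
      have : (0 : ℝ) ≤ P := by positivity
      linarith
    exact_mod_cast this
  -- `S ≤ A`
  have hSA1 : ((Q * J + 1 : ℕ) : ℝ) ≤ A := by
    have h1 : q * K ≤ u ^ 6 / W := by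
      rw [le_div_iff₀ hW0]
      calc q * K * W = (q * W) * K := by ring
        _ ≤ C * K := mul_le_mul_of_nonneg_right hCc (by positivity)
        _ ≤ u ^ 3 := hCK
        _ ≤ u ^ 6 := pow_le_pow_right₀ hu (by norm_num)
    linarith
  have hSA : (Q * J + 1) ^ 2 ≤ m * Q ^ 2 * A ^ 2 := by
    have h1 : Q * J + 1 ≤ A := by exact_mod_cast hSA1
    have h2 : (Q * J + 1) ^ 2 ≤ A ^ 2 := Nat.pow_le_pow_left h1 2
    have h3 : 1 ≤ m * Q ^ 2 := Nat.succ_le_of_lt (by positivity)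
    calc (Q * J + 1) ^ 2 ≤ A ^ 2 := h2
      _ = 1 * A ^ 2 := by ring
      _ ≤ _ := Nat.mul_le_mul_right _ h3
  -- the parameter L
  obtain ⟨L, hLdef⟩ : ∃ L : ℕ, L = 5 * (m * Q ^ 2) * A ^ 2 / P ^ 2 := ⟨_, rfl⟩
  have hPR0 : (0 : ℝ) < P := by linarith
  have hLup : (L : ℝ) * (P : ℝ) ^ 2 ≤ 45 * M * u ^ 12 := by
    have h1 : L * P ^ 2 ≤ 5 * (m * Q ^ 2) * A ^ 2 := by
      rw [hLdef]
      exact Nat.div_mul_le_self _ _
    have h2 : (L : ℝ) * (P : ℝ) ^ 2 ≤ 5 * M * (A : ℝ) ^ 2 := by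
      rw [hM]
      exact_mod_cast h1
    have h3 : (A : ℝ) ^ 2 ≤ (3 * u ^ 6) ^ 2 := pow_le_pow_left₀ (by positivity) hA3 2
    calc (L : ℝ) * (P : ℝ) ^ 2 ≤ 5 * M * (A : ℝ) ^ 2 := h2
      _ ≤ 5 * M * (3 * u ^ 6) ^ 2 := mul_le_mul_of_nonneg_left h3 (by linarith)
      _ = _ := by ring
  have hL : 20 * ((Q * J + 1 : ℕ) : ℝ) ^ 2 * Real.sqrt L + 2 * L ≤ 2 * P := by
    have h1 : 2 * (L : ℝ) ≤ P := by
      have h2 : 2 * (L : ℝ) * (P : ℝ) ^ 2 ≤ P * (P : ℝ) ^ 2 := by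
        have h3 : (B * u ^ 4) ^ 3 ≤ (P : ℝ) ^ 3 := pow_le_pow_left₀ (by positivity) hPu4 3
        have h4 : 90 * M ≤ B ^ 3 := by
          have h5 : 12 * M ≤ B := by rw [hB]; exact le_mul_of_one_le_right (by linarith) hq1
          have h6 : (12 * M) ^ 3 ≤ B ^ 3 := pow_le_pow_left₀ (by linarith) h5 3
          have h7 : M ≤ M ^ 3 := le_self_pow₀ hM1 (by norm_num)
          have h8 : (12 * M) ^ 3 = 1728 * M ^ 3 := by ring
          linarith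
        have h5 := hupos 12
        calc 2 * (L : ℝ) * (P : ℝ) ^ 2 ≤ 90 * M * u ^ 12 := by linarith
          _ ≤ B ^ 3 * u ^ 12 := mul_le_mul_of_nonneg_right h4 h5.le
          _ = (B * u ^ 4) ^ 3 := by ring
          _ ≤ (P : ℝ) ^ 3 := h3
          _ = _ := by ring
      exact le_of_mul_le_mul_right h2 (by positivity)
    have h2 : 20 * ((Q * J + 1 : ℕ) : ℝ) ^ 2 * Real.sqrt L ≤ P := by
      have hS2 : 0 < 20 * ((Q * J + 1 : ℕ) : ℝ) ^ 2 := by positivity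
      rw [← le_div_iff₀' hS2]
      apply Real.sqrt_le_iff.2
      refine ⟨by positivity, ?_⟩
      rw [div_pow, le_div_iff₀ (by positivity)]
      have h3 : (L : ℝ) * (20 * ((Q * J + 1 : ℕ) : ℝ) ^ 2) ^ 2 * (P : ℝ) ^ 2 ≤
          (P : ℝ) ^ 2 * (P : ℝ) ^ 2 := by
        have h4 : ((Q * J + 1 : ℕ) : ℝ) ^ 4 ≤ (q * K) ^ 4 := pow_le_pow_left₀ hS0.le hSR 4
        have h5 : (B * (K * u ^ 3)) ^ 4 ≤ (P : ℝ) ^ 4 := pow_le_pow_left₀ (by positivity) hPu3 4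
        have h6 : 18000 * M * q ^ 4 ≤ B ^ 4 := by
          rw [hB]
          have h7 : M ≤ M ^ 4 := le_self_pow₀ hM1 (by norm_num)
          calc 18000 * M * q ^ 4 ≤ 20736 * M ^ 4 * q ^ 4 := by
                apply mul_le_mul_of_nonneg_right _ (by positivity)
                linarith
            _ = _ := by ring
        have h7 := hupos 12
        calc (L : ℝ) * (20 * ((Q * J + 1 : ℕ) : ℝ) ^ 2) ^ 2 * (P : ℝ) ^ 2 =
              400 * (L * (P : ℝ) ^ 2) * ((Q * J + 1 : ℕ) : ℝ) ^ 4 := by ring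
          _ ≤ 400 * (45 * M * u ^ 12) * (q * K) ^ 4 := by
              apply mul_le_mul _ h4 (by positivity) (by positivity)
              linarith
          _ = (18000 * M * q ^ 4) * ((K : ℝ) ^ 4 * u ^ 12) := by ring
          _ ≤ B ^ 4 * ((K : ℝ) ^ 4 * u ^ 12) := mul_le_mul_of_nonneg_right h6 (by positivity)
          _ = (B * (K * u ^ 3)) ^ 4 := by ring
          _ ≤ (P : ℝ) ^ 4 := h5
          _ = _ := by ring
      exact le_of_mul_le_mul_right h3 (by positivity)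
    linarith
  -- the first kind
  have hJ800 : (800 : ℝ) * Q ≤ J := by
    rw [hJR]
    exact le_mul_of_one_le_right (by linarith) hKR
  have hJI : (J : ℝ) ≤ 40 * P := by
    rw [hJR]
    have h1 : 20 * (Q : ℝ) ≤ B := by
      rw [hB, hq, hM]
      have h2 : (Q : ℝ) ≤ (Q : ℝ) ^ 2 := le_self_pow₀ hQR (by norm_num)
      have h3 : (1 : ℝ) ≤ (m : ℝ) * (Q : ℝ) ^ 2 := by rw [← hM]; exact hM1
      have h4 : (0 : ℝ) ≤ (Q : ℝ) ^ 2 := by positivity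
      have h5 : 1 * (Q : ℝ) ^ 2 ≤ ((m : ℝ) * (Q : ℝ) ^ 2) * (Q : ℝ) ^ 2 :=
        mul_le_mul_of_nonneg_right h3 h4
      have h6 : 12 * ((m : ℝ) * (Q : ℝ) ^ 2) * (1600 * (Q : ℝ) ^ 2) =
        19200 * (((m : ℝ) * (Q : ℝ) ^ 2) * (Q : ℝ) ^ 2) := by ring
      rw [h6]
      linarith
    have h2 : (K : ℝ) ≤ K * u ^ 3 := le_mul_of_one_le_right (by linarith) (hupow 3)
    have h3 : 20 * (Q : ℝ) * K ≤ B * (K * u ^ 3) := by
      apply mul_le_mul h1 h2 (by positivity) (by positivity)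
    linarith
  have h4 : (40 * (P : ℝ) + J) * (2 * Real.sqrt ((Q * J + 1 : ℕ) : ℝ)) + ((Q * J + 1 : ℕ) : ℝ) ≤
      0.225 * (40 * P) * J := by
    have hJR0 : (0 : ℝ) < J := by exact_mod_cast hJ0
    have h1 : ((Q * J + 1 : ℕ) : ℝ) ≤ (J : ℝ) ^ 2 / 400 := by
      push_cast
      have h2 : (1 : ℝ) ≤ Q * J := by
        have : (1 : ℝ) ≤ J := by exact_mod_cast hJ0
        exact one_le_mul_of_one_le_of_one_le hQR this
      have h3 : 2 * ((Q : ℝ) * J) ≤ J ^ 2 / 400 := by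
        rw [le_div_iff₀ (by norm_num)]
        have h5 : 800 * (Q : ℝ) * J ≤ J * J := mul_le_mul_of_nonneg_right hJ800 hJR0.le
        have h6 : (J : ℝ) ^ 2 = J * J := by ring
        rw [h6]
        linarith
      linarith
    have h2 : Real.sqrt ((Q * J + 1 : ℕ) : ℝ) ≤ J / 20 := by
      apply Real.sqrt_le_iff.2
      refine ⟨by positivity, ?_⟩
      rw [div_pow]
      norm_num
      norm_num at h1
      exact h1
    have h3 : (40 * (P : ℝ) + J) * (2 * Real.sqrt ((Q * J + 1 : ℕ) : ℝ)) ≤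
        (40 * (P : ℝ) + J) * (2 * (J / 20)) := by
      apply mul_le_mul_of_nonneg_left _ (by positivity)
      linarith
    have h5 : (J : ℝ) * J ≤ 40 * P * J := mul_le_mul_of_nonneg_right hJI hJR0.le
    have h6 : (40 * (P : ℝ) + J) * (2 * (J / 20)) + (J : ℝ) ^ 2 / 400 ≤ 0.225 * (40 * P) * J := by
      have h7 : (40 * (P : ℝ) + J) * (2 * (J / 20)) + (J : ℝ) ^ 2 / 400 =
        4 * (P * J) + 0.1025 * (J * J) := by ring
      have h8 : 0.225 * (40 * (P : ℝ)) * J = 9 * (P * J) := by ring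
      have h9 : 40 * (P : ℝ) * J = 40 * (P * J) := by ring
      have h10 : 0 ≤ (P : ℝ) * J := by positivity
      rw [h7, h8]
      rw [h9] at h5
      linarith
    linarith
  have hcount := count_main m Q A P J L hm hmQ hQ0 hQ hP0 hJ0 hA40 hSA hLdef hL h4
  set G := (Finset.Ioc A (A + 40 * P)).filter fun i =>
      J ≤ 4 * ((Finset.Ioc 0 J).filter fun j => Squarefree (nn m Q i j)).card with hG
  -- the lower ends
  obtain ⟨f, hf⟩ : ∃ f : ℕ → ℕ, f = fun i => m ^ 3 * (Q * i) ^ 4 - m * (Q * J + 1) ^ 4 := ⟨_, rfl⟩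
  have hWi : ∀ i : ℕ, ((m ^ 3 * (Q * i) ^ 4 : ℕ) : ℝ) = W * (i : ℝ) ^ 4 := by
    intro i
    rw [hW]
    push_cast
    ring
  have hfle : ∀ i : ℕ, A < i → m * (Q * J + 1) ^ 4 ≤ m ^ 3 * (Q * i) ^ 4 := by
    intro i hi
    have h1 : α ≤ i := by
      have : (A : ℝ) < i := by exact_mod_cast hi
      linarith
    have h2 : ((m * (Q * J + 1) ^ 4 : ℕ) : ℝ) ≤ ((m ^ 3 * (Q * i) ^ 4 : ℕ) : ℝ) := by
      rw [hWi]
      have h3 : α ^ 4 ≤ (i : ℝ) ^ 4 := pow_le_pow_left₀ hα0 h1 4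
      have h4 := mul_le_mul_of_nonneg_left h3 hW0.le
      have := hupos 24
      linarith
    exact_mod_cast h2
  have hfR : ∀ i : ℕ, A < i → ((f i : ℕ) : ℝ) = W * (i : ℝ) ^ 4 - ((m * (Q * J + 1) ^ 4 : ℕ) : ℝ) := by
    intro i hi
    rw [hf, ← hWi]
    exact Nat.cast_sub (hfle i hi)
  have hfinj : Set.InjOn f (G : Set ℕ) := by
    intro i hi j hj he
    have h1 : A < i := (Finset.mem_Ioc.1 (Finset.mem_filter.1 hi).1).1
    have h2 : A < j := (Finset.mem_Ioc.1 (Finset.mem_filter.1 hj).1).1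
    have h3 : ((f i : ℕ) : ℝ) = ((f j : ℕ) : ℝ) := by rw [he]
    rw [hfR i h1, hfR j h2] at h3
    have h5 : W * (i : ℝ) ^ 4 = W * (j : ℝ) ^ 4 := by linarith
    have h6 : (i : ℝ) ^ 4 = (j : ℝ) ^ 4 := mul_left_cancel₀ hW0.ne' h5
    have h7 : i ^ 4 = j ^ 4 := by exact_mod_cast h6
    exact Nat.pow_left_injective (by norm_num : 4 ≠ 0) h7
  have hGcard : (10 : ℝ) * P ≤ G.card := by
    have : ((40 * P : ℕ) : ℝ) ≤ ((4 * G.card : ℕ) : ℝ) := by exact_mod_cast hcount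
    push_cast at this
    linarith
  have hsub : ((G.image f : Finset ℕ) : Set ℕ) ⊆ {N : ℕ | u ^ 24 ≤ N ∧ (N : ℝ) ≤ u ^ 24 + Y ∧
          K ≤ {n : ℕ | N ≤ n ∧ (n : ℝ) ≤ N + C * (K : ℝ) ^ 4 ∧ Q ∣ n + m ∧ Squarefree n ∧
            IsCongruent n}.ncard} := by
    intro N hN
    rw [Finset.coe_image] at hN
    obtain ⟨i, hi, rfl⟩ := hN
    obtain ⟨hi1, hi2⟩ := Finset.mem_filter.1 hi
    obtain ⟨hAi, hiA⟩ := Finset.mem_Ioc.1 hi1
    have hiα : α ≤ i := by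
      have : (A : ℝ) < i := by exact_mod_cast hAi
      linarith
    refine ⟨?_, ?_, ?_⟩
    · rw [hfR i hAi]
      have h3 : α ^ 4 ≤ (i : ℝ) ^ 4 := pow_le_pow_left₀ hα0 hiα 4
      have h4 := mul_le_mul_of_nonneg_left h3 hW0.le
      linarith
    · rw [hfR i hAi]
      have h1 : (i : ℝ) ≤ α + 80 * P := by
        have h2 : (i : ℝ) ≤ A + 40 * P := by exact_mod_cast hiA
        linarith
      have h3 : (i : ℝ) ^ 4 ≤ (α + 80 * P) ^ 4 := pow_le_pow_left₀ (by positivity) h1 4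
      have h5 : (α + 80 * (P : ℝ)) ^ 4 ≤ α ^ 4 + 15 * α ^ 3 * (80 * P) := by
        exact pow4_bound α (80 * P) (by positivity) h80'
      have h6 : W * (15 * α ^ 3 * (80 * P)) ≤ Y := by
        have h7 : α ^ 3 ≤ (2 * u ^ 6) ^ 3 := pow_le_pow_left₀ hα0 hαup 3
        calc W * (15 * α ^ 3 * (80 * P)) = (1200 * W * P) * α ^ 3 := by ring
          _ ≤ (1200 * W * P) * (2 * u ^ 6) ^ 3 := mul_le_mul_of_nonneg_left h7 (by positivity)
          _ = 9600 * W * u ^ 18 * P := by ring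
          _ ≤ Y := h80
      have h7 : W * (i : ℝ) ^ 4 ≤ W * (α ^ 4 + 15 * α ^ 3 * (80 * P)) :=
        mul_le_mul_of_nonneg_left (h3.trans h5) hW0.le
      linarith
    · have h4K : 4 * K ≤ J := by
        rw [hJdef]
        calc 4 * K ≤ 800 * 1 * K := by omega
          _ ≤ 800 * Q * K := Nat.mul_le_mul_right K (Nat.mul_le_mul_left 800 hQ0)
      have := cluster m Q A J i hm0 hQ0 hSA hAi (C * (K : ℝ) ^ 4) hmS K h4K hi2
      rw [hf]
      exact this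
  have hfin : ({N : ℕ | u ^ 24 ≤ N ∧ (N : ℝ) ≤ u ^ 24 + Y ∧
          K ≤ {n : ℕ | N ≤ n ∧ (n : ℝ) ≤ N + C * (K : ℝ) ^ 4 ∧ Q ∣ n + m ∧ Squarefree n ∧
            IsCongruent n}.ncard} : Set ℕ).Finite := by
    apply (Set.finite_Iic ⌊u ^ 24 + Y⌋₊).subset
    intro N hN
    exact Nat.le_floor hN.2.1
  have hle := Set.ncard_le_ncard hsub hfin
  rw [Set.ncard_coe_finset, Finset.card_image_of_injOn hfinj] at hle
  have hleR : (G.card : ℝ) ≤ _ := Nat.cast_le.2 hle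
  refine le_trans ?_ hleR
  refine le_trans ?_ hGcard
  have h1 : Y / (C * u ^ 18) ≤ Y / (c0 * u ^ 18) := by
    apply div_le_div_of_nonneg_left hY0.le hcu
    apply mul_le_mul_of_nonneg_right _ (hupos 18).le
    have h2 : c0 ≤ c0 * B := le_mul_of_one_le_right (by linarith) hB1
    linarith
  linarith

end Pool.Agent.V7H28.Cl
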