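import Pool.Agent.V7H28.Cl.Basic

set_option autoImplicit false

/-!
# The squares of large primes which divide `M i ^ 2 + c`
-/

namespace Pool.Agent.V7H28.Cl

/-- For fixed `l` the equation `M x ^ 2 + c = l p ^ 2` has few solutions with `A < x ≤ 2 A`. -/
lemma card_fixed (M A l D : ℕ) (c : ℤ) (hM : 0 < M) (hA : 0 < A)
    (hcM : |c| ≤ (M : ℤ) * (A : ℤ) ^ 2)
    (hD : ∀ d : ℤ, (l : ℤ) * d ^ 2 ≤ 5 * c ^ 2 → |d| ≤ D)
    (s : Finset ℕ) (hs : ∀ x ∈ s, (A < x ∧ x ≤ 2 * A) ∧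
      ∃ p : ℕ, Nat.Coprime x p ∧ (M : ℤ) * (x : ℤ) ^ 2 + c = l * (p : ℤ) ^ 2) :
    s.card ≤ 2 * D + 1 := by
  classical
  rcases s.eq_empty_or_nonempty with h0 | ⟨x1, hx1⟩
  · rw [h0]
    simp
  choose! q hq using fun x hx => (hs x hx).2
  have hr : ∀ x ∈ s, A < x ∧ x ≤ 2 * A := fun x hx => (hs x hx).1
  have hMZ : (0 : ℤ) < M := by exact_mod_cast hM
  have hAZ : (0 : ℤ) < A := by exact_mod_cast hA
  have hlo : ∀ x ∈ s, 0 < (l : ℤ) * (q x : ℤ) ^ 2 := by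
    intro x hx
    rw [← (hq x hx).2]
    have h1 : (A : ℤ) < x := by exact_mod_cast (hr x hx).1
    have h2 : (A : ℤ) ^ 2 < (x : ℤ) ^ 2 := by nlinarith
    have h3 : (M : ℤ) * (A : ℤ) ^ 2 < M * (x : ℤ) ^ 2 := mul_lt_mul_of_pos_left h2 hMZ
    have h4 := neg_abs_le c
    linarith
  have hqpos : ∀ x ∈ s, (0 : ℤ) < q x := by
    intro x hx
    have h1 := hlo x hx
    rcases Nat.eq_zero_or_pos (q x) with h2 | h2
    · rw [h2] at h1
      simp at h1
    · exact_mod_cast h2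
  have hup : ∀ x ∈ s, (l : ℤ) * (q x : ℤ) ^ 2 ≤ 5 * M * (A : ℤ) ^ 2 := by
    intro x hx
    rw [← (hq x hx).2]
    have h1 : (x : ℤ) ≤ 2 * A := by exact_mod_cast (hr x hx).2
    have h0 : (0 : ℤ) ≤ x := by positivity
    have h2 : (x : ℤ) ^ 2 ≤ 4 * (A : ℤ) ^ 2 := by nlinarith
    have h3 : (M : ℤ) * (x : ℤ) ^ 2 ≤ M * (4 * (A : ℤ) ^ 2) := mul_le_mul_of_nonneg_left h2 hMZ.le
    have h4 := le_abs_self c
    nlinarith
  have hlZ : (0 : ℤ) ≤ l := by positivity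
  have hdet : ∀ x ∈ s, |(x1 : ℤ) * q x - x * q x1| ≤ D := by
    intro x hx
    apply hD
    set d : ℤ := (x1 : ℤ) * q x - x * q x1 with hd
    have e1 := (hq x1 hx1).2
    have e2 := (hq x hx).2
    have p1 := hqpos x1 hx1
    have p2 := hqpos x hx
    have id1 : (M : ℤ) * d * ((x1 : ℤ) * q x + x * q x1) =
        c * ((q x1 : ℤ) - q x) * (q x1 + q x) := by
      have : (M : ℤ) * d * ((x1 : ℤ) * q x + x * q x1) =
        (M * (x1 : ℤ) ^ 2) * (q x : ℤ) ^ 2 - (M * (x : ℤ) ^ 2) * (q x1 : ℤ) ^ 2 := by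
        rw [hd]
        ring
      rw [this]
      have e1' : (M : ℤ) * (x1 : ℤ) ^ 2 = l * (q x1 : ℤ) ^ 2 - c := by linarith
      have e2' : (M : ℤ) * (x : ℤ) ^ 2 = l * (q x : ℤ) ^ 2 - c := by linarith
      rw [e1', e2']
      ring
    have h1 : (A : ℤ) < x1 := by exact_mod_cast (hr x1 hx1).1
    have h2 : (A : ℤ) < x := by exact_mod_cast (hr x hx).1
    have h3 : (A : ℤ) * (q x1 + q x) ≤ (x1 : ℤ) * q x + x * q x1 := by nlinarith
    have h4 : 0 < (q x1 : ℤ) + q x := by linarith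
    have h5 : (M : ℤ) * |d| * A ≤ |c| * |(q x1 : ℤ) - q x| := by
      have h6 : (M : ℤ) * |d| * A * (q x1 + q x) ≤ |c| * |(q x1 : ℤ) - q x| * (q x1 + q x) := by
        calc (M : ℤ) * |d| * A * (q x1 + q x) = (M : ℤ) * |d| * (A * (q x1 + q x)) := by ring
          _ ≤ (M : ℤ) * |d| * ((x1 : ℤ) * q x + x * q x1) :=
              mul_le_mul_of_nonneg_left h3 (by positivity)
          _ = |(M : ℤ) * d * ((x1 : ℤ) * q x + x * q x1)| := by
              rw [abs_mul, abs_mul, abs_of_pos hMZ,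
                abs_of_nonneg (show (0 : ℤ) ≤ (x1 : ℤ) * q x + x * q x1 by positivity)]
          _ = |c * ((q x1 : ℤ) - q x) * (q x1 + q x)| := by rw [id1]
          _ = |c| * |(q x1 : ℤ) - q x| * (q x1 + q x) := by
              rw [abs_mul, abs_mul, abs_of_pos h4]
      exact le_of_mul_le_mul_right h6 h4
    have h7 : (l : ℤ) * |(q x1 : ℤ) - q x| ^ 2 ≤ 5 * M * (A : ℤ) ^ 2 := by
      rcases le_total (q x1 : ℤ) (q x) with h8 | h8
      · rw [abs_of_nonpos (by linarith)]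
        have h9 : (-((q x1 : ℤ) - q x)) ^ 2 ≤ (q x : ℤ) ^ 2 := by nlinarith
        exact (mul_le_mul_of_nonneg_left h9 hlZ).trans (hup x hx)
      · rw [abs_of_nonneg (by linarith)]
        have h9 : ((q x1 : ℤ) - q x) ^ 2 ≤ (q x1 : ℤ) ^ 2 := by nlinarith
        exact (mul_le_mul_of_nonneg_left h9 hlZ).trans (hup x1 hx1)
    have h10 : (l : ℤ) * ((M : ℤ) * |d| * A) ^ 2 ≤ c ^ 2 * (5 * M * (A : ℤ) ^ 2) := by
      calc (l : ℤ) * ((M : ℤ) * |d| * A) ^ 2 ≤ l * (|c| * |(q x1 : ℤ) - q x|) ^ 2 := by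
            apply mul_le_mul_of_nonneg_left _ hlZ
            exact pow_le_pow_left₀ (by positivity) h5 2
        _ = c ^ 2 * (l * |(q x1 : ℤ) - q x| ^ 2) := by
            rw [mul_pow, sq_abs c]
            ring
        _ ≤ _ := mul_le_mul_of_nonneg_left h7 (by positivity)
    have h11 : ((l : ℤ) * M * d ^ 2) * (M * (A : ℤ) ^ 2) ≤ (5 * c ^ 2) * (M * (A : ℤ) ^ 2) := by
      calc ((l : ℤ) * M * d ^ 2) * (M * (A : ℤ) ^ 2) = (l : ℤ) * ((M : ℤ) * |d| * A) ^ 2 := by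
            rw [mul_pow, mul_pow, sq_abs]
            ring
        _ ≤ _ := h10
        _ = _ := by ring
    have h12 : (l : ℤ) * M * d ^ 2 ≤ 5 * c ^ 2 := le_of_mul_le_mul_right h11 (by positivity)
    have h13 : (l : ℤ) * d ^ 2 ≤ (l : ℤ) * M * d ^ 2 := by
      have h14 : (1 : ℤ) ≤ M := by exact_mod_cast hM
      have h15 : (0 : ℤ) ≤ l * d ^ 2 := by positivity
      nlinarith
    linarith
  have hcard : (Finset.Icc (-(D : ℤ)) D).card = 2 * D + 1 := by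
    rw [Int.card_Icc]
    omega
  rw [← hcard]
  apply Finset.card_le_card_of_injOn (fun x => (x1 : ℤ) * q x - x * q x1)
  · intro x hx
    rw [Finset.coe_Icc, Set.mem_Icc]
    exact abs_le.1 (hdet x hx)
  · intro x hx z hz hxz
    have hxz' : (x1 : ℤ) * q x - x * q x1 = (x1 : ℤ) * q z - z * q x1 := hxz
    have h1 : (x1 : ℤ) * ((q x : ℤ) - q z) = ((x : ℤ) - z) * q x1 := by linarith
    have h2 : IsCoprime (x1 : ℤ) (q x1 : ℤ) := Nat.isCoprime_iff_coprime.2 (hq x1 hx1).1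
    have h3 : (x1 : ℤ) ∣ (x : ℤ) - z := h2.dvd_of_dvd_mul_right ⟨_, h1.symm⟩
    have h4 : (A : ℤ) < x1 := by exact_mod_cast (hr x1 hx1).1
    have h5 : (A : ℤ) < x := by exact_mod_cast (hr x hx).1
    have h6 : (x : ℤ) ≤ 2 * A := by exact_mod_cast (hr x hx).2
    have h7 : (A : ℤ) < z := by exact_mod_cast (hr z hz).1
    have h8 : (z : ℤ) ≤ 2 * A := by exact_mod_cast (hr z hz).2
    have h9 : (x : ℤ) - z = 0 := by
      apply Int.eq_zero_of_abs_lt_dvd h3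
      rw [abs_lt]
      constructor <;> linarith
    have : (x : ℤ) = z := by linarith
    exact_mod_cast this

lemma sum_inv_sqrt (L : ℕ) : ∑ l ∈ Finset.Icc 1 L, 1 / Real.sqrt l ≤ 2 * Real.sqrt L := by
  induction L with
  | zero => simp
  | succ n ih =>
    rw [Finset.sum_Icc_succ_top (by omega)]
    have hb : 0 < Real.sqrt ((n + 1 : ℕ) : ℝ) := Real.sqrt_pos.2 (by positivity)
    have ha : 0 ≤ Real.sqrt (n : ℝ) := Real.sqrt_nonneg _
    have h1 : Real.sqrt ((n + 1 : ℕ) : ℝ) ^ 2 = n + 1 := by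
      rw [Real.sq_sqrt (by positivity)]
      push_cast
      ring
    have h2 : Real.sqrt (n : ℝ) ^ 2 = n := Real.sq_sqrt (by positivity)
    have h3 : 1 / Real.sqrt ((n + 1 : ℕ) : ℝ) ≤
        2 * Real.sqrt ((n + 1 : ℕ) : ℝ) - 2 * Real.sqrt n := by
      rw [div_le_iff₀ hb]
      nlinarith [sq_nonneg (Real.sqrt ((n + 1 : ℕ) : ℝ) - Real.sqrt n)]
    linarith

/-- large primes -/
lemma card_large (M A P L : ℕ) (c : ℤ) (hM : 0 < M) (hA : 0 < A) (hP : 0 < P)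
    (hL : L = 5 * M * A ^ 2 / P ^ 2)
    (hcM : |c| ≤ (M : ℤ) * (A : ℤ) ^ 2)
    (s : Finset ℕ) (hs : ∀ x ∈ s, (A < x ∧ x ≤ 2 * A) ∧
      ∃ p : ℕ, p.Prime ∧ P < p ∧ ¬ (p : ℤ) ∣ c ∧ (p : ℤ) ^ 2 ∣ (M : ℤ) * (x : ℤ) ^ 2 + c) :
    (s.card : ℝ) ≤ 10 * |(c : ℝ)| * Real.sqrt L + L := by
  classical
  have hMZ : (0 : ℤ) < M := by exact_mod_cast hM
  have hAZ : (0 : ℤ) < A := by exact_mod_cast hA
  set T : ℕ → Finset ℕ := fun l => s.filter fun x =>
    ∃ p : ℕ, Nat.Coprime x p ∧ (M : ℤ) * (x : ℤ) ^ 2 + c = l * (p : ℤ) ^ 2 with hT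
  have hsub : s ⊆ (Finset.Icc 1 L).biUnion T := by
    intro x hx
    obtain ⟨⟨h1, h2⟩, p, hp, hPp, hpc, l, hl⟩ := hs x hx
    have h1' : (A : ℤ) < x := by exact_mod_cast h1
    have h2' : (x : ℤ) ≤ 2 * A := by exact_mod_cast h2
    have h3 : (A : ℤ) ^ 2 < (x : ℤ) ^ 2 := by nlinarith
    have h4 : (x : ℤ) ^ 2 ≤ 4 * (A : ℤ) ^ 2 := by nlinarith
    have h5 : (M : ℤ) * (A : ℤ) ^ 2 < M * (x : ℤ) ^ 2 := mul_lt_mul_of_pos_left h3 hMZ
    have h6 : (M : ℤ) * (x : ℤ) ^ 2 ≤ M * (4 * (A : ℤ) ^ 2) := mul_le_mul_of_nonneg_left h4 hMZ.le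
    have h7 := neg_abs_le c
    have h8 := le_abs_self c
    have hpp : (0 : ℤ) < (p : ℤ) ^ 2 := by
      have := hp.pos
      positivity
    have hlpos : 0 < l := by
      have : 0 < (p : ℤ) ^ 2 * l := by rw [← hl]; linarith
      exact (pos_iff_pos_of_mul_pos this).1 hpp
    have hlt : (l.toNat : ℤ) = l := Int.toNat_of_nonneg hlpos.le
    rw [Finset.mem_biUnion]
    refine ⟨l.toNat, ?_, ?_⟩
    · rw [Finset.mem_Icc]
      constructor
      · omega
      · rw [hL, Nat.le_div_iff_mul_le (by positivity)]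
        have h9 : (P : ℤ) ^ 2 ≤ (p : ℤ) ^ 2 := by
          have : (P : ℤ) < p := by exact_mod_cast hPp
          have h0 : (0 : ℤ) ≤ P := by positivity
          nlinarith
        have h10 : l * (P : ℤ) ^ 2 ≤ 5 * M * (A : ℤ) ^ 2 := by
          calc l * (P : ℤ) ^ 2 ≤ l * (p : ℤ) ^ 2 := mul_le_mul_of_nonneg_left h9 hlpos.le
            _ = (M : ℤ) * (x : ℤ) ^ 2 + c := by rw [hl]; ring
            _ ≤ _ := by nlinarith
        have h11 : ((l.toNat * P ^ 2 : ℕ) : ℤ) ≤ ((5 * M * A ^ 2 : ℕ) : ℤ) := by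
          push_cast
          rw [hlt]
          exact h10
        exact_mod_cast h11
    · rw [hT]
      simp only [Finset.mem_filter]
      refine ⟨hx, p, ?_, ?_⟩
      · rw [Nat.coprime_comm]
        rw [Nat.Prime.coprime_iff_not_dvd hp]
        intro hd
        apply hpc
        have h9 : (p : ℤ) ∣ (x : ℤ) := Int.natCast_dvd_natCast.2 hd
        have h10 : (p : ℤ) ∣ (M : ℤ) * (x : ℤ) ^ 2 := (h9.trans (dvd_pow_self _ (by norm_num))).mul_left _
        have h11 : (p : ℤ) ∣ (M : ℤ) * (x : ℤ) ^ 2 + c := by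
          rw [hl]
          exact (dvd_pow_self _ (by norm_num)).mul_right _
        exact (dvd_add_right h10).1 h11
      · rw [hl, hlt]
        ring
  have hcard : ∀ l ∈ Finset.Icc 1 L, ((T l).card : ℝ) ≤ 5 * |(c : ℝ)| * (1 / Real.sqrt l) + 1 := by
    intro l hl
    have hl1 : 1 ≤ l := (Finset.mem_Icc.1 hl).1
    set D : ℕ := Nat.sqrt (5 * c.natAbs ^ 2 / l) with hD
    have h1 : (T l).card ≤ 2 * D + 1 := by
      apply card_fixed M A l D c hM hA hcM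
      · intro d hd
        have h2 : l * d.natAbs ^ 2 ≤ 5 * c.natAbs ^ 2 := by
          have : ((l * d.natAbs ^ 2 : ℕ) : ℤ) ≤ ((5 * c.natAbs ^ 2 : ℕ) : ℤ) := by
            push_cast
            rw [sq_abs, sq_abs]
            exact hd
          exact_mod_cast this
        have h3 : d.natAbs ^ 2 ≤ 5 * c.natAbs ^ 2 / l := by
          rw [Nat.le_div_iff_mul_le (by omega)]
          rw [mul_comm]
          exact h2
        have h4 : d.natAbs ≤ D := by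
          rw [hD]
          exact Nat.le_sqrt'.2 h3
        have h5 : |d| = (d.natAbs : ℤ) := Int.abs_eq_natAbs d
        rw [h5]
        exact_mod_cast h4
      · intro x hx
        have h2 := Finset.mem_filter.1 hx
        exact ⟨(hs x h2.1).1, h2.2⟩
    have h2 : (D : ℝ) ≤ 5 / 2 * |(c : ℝ)| * (1 / Real.sqrt l) := by
      have h3 : D ^ 2 ≤ 5 * c.natAbs ^ 2 / l := Nat.sqrt_le' _
      have h4 : D ^ 2 * l ≤ 5 * c.natAbs ^ 2 := (Nat.le_div_iff_mul_le (by omega)).1 h3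
      have h5 : (D : ℝ) ^ 2 * l ≤ 5 * (c : ℝ) ^ 2 := by
        have h6 : ((D ^ 2 * l : ℕ) : ℝ) ≤ ((5 * c.natAbs ^ 2 : ℕ) : ℝ) := by exact_mod_cast h4
        push_cast at h6
        rw [Nat.cast_natAbs] at h6
        push_cast at h6
        rw [sq_abs] at h6
        exact h6
      have hsl : 0 < Real.sqrt (l : ℝ) := Real.sqrt_pos.2 (by exact_mod_cast hl1)
      have hsl2 : Real.sqrt (l : ℝ) ^ 2 = l := Real.sq_sqrt (by positivity)
      rw [mul_one_div, le_div_iff₀ hsl]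
      apply (pow_le_pow_iff_left₀ (by positivity) (by positivity) two_ne_zero).1
      rw [mul_pow, hsl2, mul_pow, sq_abs]
      nlinarith [sq_nonneg (c : ℝ)]
    calc ((T l).card : ℝ) ≤ 2 * D + 1 := by exact_mod_cast h1
      _ ≤ _ := by linarith
  calc (s.card : ℝ) ≤ (((Finset.Icc 1 L).biUnion T).card : ℝ) := by
        exact_mod_cast Finset.card_le_card hsub
    _ ≤ ∑ l ∈ Finset.Icc 1 L, ((T l).card : ℝ) := by
        exact_mod_cast Finset.card_biUnion_le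
    _ ≤ ∑ l ∈ Finset.Icc 1 L, (5 * |(c : ℝ)| * (1 / Real.sqrt l) + 1) := Finset.sum_le_sum hcard
    _ = 5 * |(c : ℝ)| * (∑ l ∈ Finset.Icc 1 L, 1 / Real.sqrt l) + L := by
        rw [Finset.sum_add_distrib, ← Finset.mul_sum]
        simp
    _ ≤ 5 * |(c : ℝ)| * (2 * Real.sqrt L) + L := by
        have := sum_inv_sqrt L
        have h0 : 0 ≤ 5 * |(c : ℝ)| := by positivity
        nlinarith [mul_le_mul_of_nonneg_left this h0]
    _ = _ := by ring

end Pool.Agent.V7H28.Cl
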