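import Pool.Agent.V7H28.Cl.Count

set_option autoImplicit false

/-!
# Many good pairs
-/

namespace Pool.Agent.V7H28.Cl

/-- the numbers `m ^ 3 (Q i) ^ 4 - m (Q j + 1) ^ 4` -/
def nn (m Q i j : ℕ) : ℕ :=
  m * ((m * Q ^ 2 * i ^ 2 - (Q * j + 1) ^ 2) * (m * Q ^ 2 * i ^ 2 + (Q * j + 1) ^ 2))

lemma nn_eq (m Q i j : ℕ) (h : (Q * j + 1) ^ 2 ≤ m * Q ^ 2 * i ^ 2) :
    nn m Q i j + m * (Q * j + 1) ^ 4 = m ^ 3 * (Q * i) ^ 4 := by
  unfold nn
  obtain ⟨d, hd⟩ := Nat.exists_eq_add_of_le h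
  rw [hd, Nat.add_sub_cancel_left]
  have : m ^ 3 * (Q * i) ^ 4 = m * (m * Q ^ 2 * i ^ 2) ^ 2 := by ring
  rw [this, hd]
  ring

open Classical in
lemma count_main (m Q A P J L : ℕ) (hm : Squarefree m) (hmQ : m ∣ Q) (hQ0 : 0 < Q)
    (hQ : ∀ p : ℕ, p.Prime → p ≤ 40 → p ∣ Q) (hP : 0 < P) (hJ : 0 < J) (hA : 40 * P ≤ A)
    (hSA : (Q * J + 1) ^ 2 ≤ m * Q ^ 2 * A ^ 2) (hLdef : L = 5 * (m * Q ^ 2) * A ^ 2 / P ^ 2)
    (hL : 20 * ((Q * J + 1 : ℕ) : ℝ) ^ 2 * Real.sqrt L + 2 * L ≤ 2 * P)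
    (h4 : (40 * (P : ℝ) + J) * (2 * Real.sqrt ((Q * J + 1 : ℕ) : ℝ)) + ((Q * J + 1 : ℕ) : ℝ) ≤
      0.225 * (40 * P) * J) :
    40 * P ≤ 4 * ((Finset.Ioc A (A + 40 * P)).filter fun i =>
      J ≤ 4 * ((Finset.Ioc 0 J).filter fun j => Squarefree (nn m Q i j)).card).card := by
  have hm0 : 0 < m := Nat.pos_of_ne_zero hm.ne_zero
  have hM0 : 0 < m * Q ^ 2 := by positivity
  have hA0 : 0 < A := by omega
  set M := m * Q ^ 2 with hM
  set S := Q * J + 1 with hS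
  set T1 := Finset.Ioc A (A + 40 * P) with hT1
  set T2 := Finset.Ioc 0 J with hT2
  have c1 : T1.card = 40 * P := by rw [hT1, Nat.card_Ioc]; omega
  have c2 : T2.card = J := by rw [hT2, Nat.card_Ioc]; omega
  set bad : ℕ → ℕ → Prop := fun i j => BadA 40 i (Q * j + 1) ∨ BadB 40 M i (Q * j + 1) with hbad
  have hjS : ∀ j ∈ T2, Q * j + 1 ≤ S := by
    intro j hj
    have := (Finset.mem_Ioc.1 hj).2
    have := Nat.mul_le_mul_left Q this
    omega
  -- the first kind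
  have hTA : (((T1 ×ˢ T2).filter fun x => BadA 40 x.1 (Q * x.2 + 1)).card : ℝ) ≤
      ((40 * P : ℕ) : ℝ) * J / 40 + (((40 * P : ℕ) : ℝ) + J) * (2 * Real.sqrt S) + S := by
    apply badA_card Q A (40 * P) J S hS
    intro x hx
    obtain ⟨h1, h2⟩ := Finset.mem_filter.1 hx
    obtain ⟨h3, h5⟩ := Finset.mem_product.1 h1
    exact ⟨Finset.mem_Ioc.1 h3, Finset.mem_Ioc.1 h5, h2⟩
  -- the second kind
  have hTB : (((T1 ×ˢ T2).filter fun x => BadB 40 M x.1 (Q * x.2 + 1)).card : ℝ) ≤ J * (10 * P) := by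
    have e1 : ((T1 ×ˢ T2).filter fun x => BadB 40 M x.1 (Q * x.2 + 1)).card =
        ∑ j ∈ T2, (T1.filter fun i => BadB 40 M i (Q * j + 1)).card := by
      rw [Finset.card_filter, Finset.sum_product_right]
      apply Finset.sum_congr rfl
      intro j _
      rw [Finset.card_filter]
    rw [e1]
    push_cast
    calc ∑ j ∈ T2, ((T1.filter fun i => BadB 40 M i (Q * j + 1)).card : ℝ) ≤ ∑ j ∈ T2, (10 * P : ℝ) := by
          apply Finset.sum_le_sum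
          intro j hj
          have hs := hjS j hj
          have hs2 : (Q * j + 1) ^ 2 ≤ S ^ 2 := Nat.pow_le_pow_left hs 2
          have h5 := badB_card M A P L (Q * j + 1) hM0 hA0 hP hA hLdef (hs2.trans hSA)
            (T1.filter fun i => BadB 40 M i (Q * j + 1)) (by
              intro x hx
              obtain ⟨h6, h7⟩ := Finset.mem_filter.1 hx
              exact ⟨Finset.mem_Ioc.1 h6, h7⟩)
          have h8 : (((Q * j + 1 : ℕ) : ℝ)) ^ 2 ≤ (S : ℝ) ^ 2 := by exact_mod_cast hs2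
          have h9 := mul_le_mul_of_nonneg_right h8 (Real.sqrt_nonneg (L : ℝ))
          nlinarith
      _ = _ := by
          rw [Finset.sum_const, c2, nsmul_eq_mul]
  have hbadc : 2 * ((T1 ×ˢ T2).filter fun x => bad x.1 x.2).card ≤ T1.card * T2.card := by
    have hsub : ((T1 ×ˢ T2).filter fun x => bad x.1 x.2) ⊆
        ((T1 ×ˢ T2).filter fun x => BadA 40 x.1 (Q * x.2 + 1)) ∪
        ((T1 ×ˢ T2).filter fun x => BadB 40 M x.1 (Q * x.2 + 1)) := by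
      intro x hx
      obtain ⟨h1, h2⟩ := Finset.mem_filter.1 hx
      rw [Finset.mem_union, Finset.mem_filter, Finset.mem_filter]
      rcases h2 with h2 | h2
      · exact Or.inl ⟨h1, h2⟩
      · exact Or.inr ⟨h1, h2⟩
    have h1 : (((T1 ×ˢ T2).filter fun x => bad x.1 x.2).card : ℝ) ≤
        (((T1 ×ˢ T2).filter fun x => BadA 40 x.1 (Q * x.2 + 1)).card : ℝ) +
        (((T1 ×ˢ T2).filter fun x => BadB 40 M x.1 (Q * x.2 + 1)).card : ℝ) := by
      exact_mod_cast (Finset.card_le_card hsub).trans (Finset.card_union_le _ _)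
    have h2 : 2 * (((T1 ×ˢ T2).filter fun x => bad x.1 x.2).card : ℝ) ≤ (T1.card : ℝ) * T2.card := by
      rw [c1, c2]
      push_cast at hTA ⊢
      linarith
    exact_mod_cast h2
  have hp := pigeon T1 T2 bad (by rw [c2]; exact hJ) hbadc
  rw [c1, c2] at hp
  refine hp.trans (Nat.mul_le_mul_left 4 (Finset.card_le_card ?_))
  intro i hi
  obtain ⟨h1, h2⟩ := Finset.mem_filter.1 hi
  rw [Finset.mem_filter]
  refine ⟨h1, h2.trans (Nat.mul_le_mul_left 4 (Finset.card_le_card ?_))⟩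
  intro j hj
  obtain ⟨h3, h5⟩ := Finset.mem_filter.1 hj
  rw [Finset.mem_filter]
  refine ⟨h3, ?_⟩
  have h6 : ¬ BadA 40 i (Q * j + 1) := fun h => h5 (Or.inl h)
  have h7 : ¬ BadB 40 M i (Q * j + 1) := fun h => h5 (Or.inr h)
  unfold nn
  apply sqf m Q 40 i j hm hmQ (by norm_num) hQ _ h6 h7
  have h8 : (Q * j + 1) ^ 2 ≤ S ^ 2 := Nat.pow_le_pow_left (hjS j h3) 2
  have h9 : A < i := (Finset.mem_Ioc.1 h1).1
  have h10 : A ^ 2 < i ^ 2 := Nat.pow_lt_pow_left h9 (by norm_num)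
  have h11 : M * A ^ 2 < M * i ^ 2 := Nat.mul_lt_mul_of_pos_left h10 hM0
  exact lt_of_le_of_lt (h8.trans hSA) h11

end Pool.Agent.V7H28.Cl
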